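import Mathlib

/-!
Left random context grammars simulate queue machines (MP_fc8a61_lc, S10767).
A queue machine reads the front letter, writes one letter at the back; the queue keeps its length.
-/

set_option autoImplicit false

namespace Pool.Agent.H522R4.RC

/-- a queue machine with padded start and final queue -/
structure Sys (T K Θ : Type) where
  start : K
  acc : K → Prop
  δ : K → Θ → Θ → K → Prop
  ini : Bool → Θ → Bool → Prop
  okF : Θ → Prop
  out : Θ → Option T
  hash : Θ

variable {T K Θ : Type}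

/-- runs of the machine; the list holds the pairs (letter read, letter written) -/
def Run (S : Sys T K Θ) : K → List (Θ × Θ) → K → Prop
  | q, [], r => q = r
  | q, p :: l, r => ∃ s, S.δ q p.1 p.2 s ∧ Run S s l r

/-- start queues are the lists `v` with `Init S false v true` -/
def Init (S : Sys T K Θ) : Bool → List Θ → Bool → Prop
  | b, [], c => b = c
  | b, v :: l, c => ∃ d, S.ini b v d ∧ Init S d l c

theorem run_append (S : Sys T K Θ) (q r : K) (l m : List (Θ × Θ)) :
    Run S q (l ++ m) r ↔ ∃ s, Run S q l s ∧ Run S s m r := by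
  induction l generalizing q with
  | nil => simp [Run]
  | cons p l ih =>
    simp only [List.cons_append, Run, ih]
    constructor
    · rintro ⟨s, hs, t, h1, h2⟩; exact ⟨t, ⟨s, hs, h1⟩, h2⟩
    · rintro ⟨t, ⟨s, hs, h1⟩, h2⟩; exact ⟨s, hs, t, h1, h2⟩

theorem run_snoc (S : Sys T K Θ) (q r : K) (l : List (Θ × Θ)) (a b : Θ) :
    Run S q (l ++ [(a, b)]) r ↔ ∃ s, Run S q l s ∧ S.δ s a b r := by
  simp [run_append, Run]

theorem init_append (S : Sys T K Θ) (q r : Bool) (l m : List Θ) :
    Init S q (l ++ m) r ↔ ∃ s, Init S q l s ∧ Init S s m r := by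
  induction l generalizing q with
  | nil => simp [Init]
  | cons p l ih =>
    simp only [List.cons_append, Init, ih]
    constructor
    · rintro ⟨s, hs, t, h1, h2⟩; exact ⟨t, ⟨s, hs, h1⟩, h2⟩
    · rintro ⟨t, ⟨s, hs, h1⟩, h2⟩; exact ⟨s, hs, t, h1, h2⟩

theorem init_snoc (S : Sys T K Θ) (q r : Bool) (l : List Θ) (a : Θ) :
    Init S q (l ++ [a]) r ↔ ∃ s, Init S q l s ∧ S.ini s a r := by
  simp [init_append, Init]

/-- `w` is the output of a queue run -/
def Spec (S : Sys T K Θ) (w : List T) : Prop :=
  ∃ (v0 t0 : List Θ) (ps : List (Θ × Θ)) (q : K),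
    Init S false v0 true ∧ Run S S.start ps q ∧ S.acc q ∧ (∀ t ∈ t0, S.okF t) ∧
    v0.length = t0.length ∧
    S.hash :: v0 ++ ps.map Prod.snd = ps.map Prod.fst ++ S.hash :: t0 ∧
    w = t0.filterMap S.out

/-- letters separated by bars (`none`) -/
def inter (l : List Θ) : List (Option Θ) := l.flatMap (fun v => [some v, none])

/-- the nonterminals of the left random context grammar -/
inductive NT (K Θ : Type) : Type
  | st : NT K Θ
  | sp : Bool → NT K Θ
  | ct : K → NT K Θ
  | I : Option Θ → NT K Θ
  | M : Option Θ → Option Θ → NT K Θ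
  | M' : Option Θ → NT K Θ
  | F : Option Θ → NT K Θ
  | A : Option Θ → NT K Θ

/-- the output of a final token -/
def outL (S : Sys T K Θ) (v : Option Θ) : List (Symbol T (NT K Θ)) :=
  ((v.bind S.out).toList).map Symbol.terminal

/-- the derivation steps of the left random context grammar of `S` -/
inductive HStep (S : Sys T K Θ) :
    List (Symbol T (NT K Θ)) → List (Symbol T (NT K Θ)) → Prop
  | start (u v : List (Symbol T (NT K Θ))) :
      HStep S (u ++ [.nonterminal NT.st] ++ v)
        (u ++ [.nonterminal (NT.I (some S.hash)), .nonterminal (NT.I none),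
          .nonterminal (NT.sp false)] ++ v)
  | spine (u v : List (Symbol T (NT K Θ))) (b : Bool) (x : Θ) (c : Bool) (t : Θ)
      (hi : S.ini b x c) (ho : S.okF t) (hu : ∀ e : Bool, Symbol.nonterminal (NT.sp e) ∉ u) :
      HStep S (u ++ [.nonterminal (NT.sp b)] ++ v)
        (u ++ [.nonterminal (NT.I (some x)), .nonterminal (NT.I none), .nonterminal (NT.sp c),
          .nonterminal (NT.F (some t)), .nonterminal (NT.F none)] ++ v)
  | spineEnd (u v : List (Symbol T (NT K Θ))) (hu : ∀ e : Bool, Symbol.nonterminal (NT.sp e) ∉ u) :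
      HStep S (u ++ [.nonterminal (NT.sp true)] ++ v)
        (u ++ [.nonterminal (NT.ct S.start), .nonterminal (NT.F (some S.hash)),
          .nonterminal (NT.F none)] ++ v)
  | ctr (u v : List (Symbol T (NT K Θ))) (q : K) (a b : Θ) (r : K) (hd : S.δ q a b r)
      (hu : ∀ e : K, Symbol.nonterminal (NT.ct e) ∉ u) :
      HStep S (u ++ [.nonterminal (NT.ct q)] ++ v)
        (u ++ [.nonterminal (NT.M (some a) (some b)), .nonterminal (NT.M none none),
          .nonterminal (NT.ct r)] ++ v)
  | ctrEnd (u v : List (Symbol T (NT K Θ))) (q : K) (hq : S.acc q)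
      (hu : ∀ e : K, Symbol.nonterminal (NT.ct e) ∉ u) :
      HStep S (u ++ [.nonterminal (NT.ct q)] ++ v) (u ++ [] ++ v)
  | speakI (u v : List (Symbol T (NT K Θ))) (a : Option Θ)
      (hu : ∀ B : NT K Θ, Symbol.nonterminal B ∉ u) :
      HStep S (u ++ [.nonterminal (NT.I a)] ++ v) (u ++ [.nonterminal (NT.A a)] ++ v)
  | speakM (u v : List (Symbol T (NT K Θ))) (a : Option Θ)
      (hu : ∀ B : NT K Θ, Symbol.nonterminal B ∉ u) :
      HStep S (u ++ [.nonterminal (NT.M' a)] ++ v) (u ++ [.nonterminal (NT.A a)] ++ v)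
  | erase (u v : List (Symbol T (NT K Θ))) (a : Option Θ)
      (hu : ∀ B : NT K Θ, Symbol.nonterminal B ∉ u) :
      HStep S (u ++ [.nonterminal (NT.A a)] ++ v) (u ++ [] ++ v)
  | listenM (u v : List (Symbol T (NT K Θ))) (a b : Option Θ)
      (ha : Symbol.nonterminal (NT.A a) ∈ u)
      (hu : ∀ c d : Option Θ, Symbol.nonterminal (NT.M c d) ∉ u) :
      HStep S (u ++ [.nonterminal (NT.M a b)] ++ v) (u ++ [.nonterminal (NT.M' b)] ++ v)
  | listenF (u v : List (Symbol T (NT K Θ))) (a : Option Θ)
      (ha : Symbol.nonterminal (NT.A a) ∈ u)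
      (hu1 : ∀ c d : Option Θ, Symbol.nonterminal (NT.M c d) ∉ u)
      (hu2 : ∀ c : Option Θ, Symbol.nonterminal (NT.F c) ∉ u)
      (hu3 : ∀ e : Bool, Symbol.nonterminal (NT.sp e) ∉ u)
      (hu4 : ∀ e : K, Symbol.nonterminal (NT.ct e) ∉ u)
      (hu5 : Symbol.nonterminal NT.st ∉ u) :
      HStep S (u ++ [.nonterminal (NT.F a)] ++ v) (u ++ outL S a ++ v)

/-! ### Part 2: the queue machine of a one-sided random context grammar -/

/-- rules of a random context grammar -/
abbrev RCRule (T N : Type) := N × List (Symbol T N) × Finset N × Finset N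

/-- the derivation step of a one-sided random context grammar (as in the frozen statement) -/
def GStep {T N : Type} (PL PR : Finset (RCRule T N)) (α β : List (Symbol T N)) : Prop :=
  ∃ (u v : List (Symbol T N)) (A : N) (x : List (Symbol T N)) (U W : Finset N),
    α = u ++ [Symbol.nonterminal A] ++ v ∧ β = u ++ x ++ v ∧
    (((A, x, U, W) ∈ PL ∧ (∀ B ∈ U, Symbol.nonterminal B ∈ u) ∧
        (∀ B ∈ W, Symbol.nonterminal B ∉ u)) ∨
     ((A, x, U, W) ∈ PR ∧ (∀ B ∈ U, Symbol.nonterminal B ∈ v) ∧
        (∀ B ∈ W, Symbol.nonterminal B ∉ v)))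

/-- states of the row machine -/
inductive Kst (T N : Type) (L : ℕ) : Type
  | start : Kst T N L
  | pre : Set N → Kst T N L
  | wr : {l : List (Symbol T N) // l.length ≤ L} → Set N → Set N → Set N → Kst T N L

/-- the nonterminal in a cell -/
def nts {T N : Type} (c : Option (Symbol T N)) : Set N := {B | c = some (Symbol.nonterminal B)}

/-- the state is final for a row -/
def Acc {T N : Type} {L : ℕ} : Kst T N L → Prop
  | Kst.start => True
  | Kst.pre _ => False
  | Kst.wr x U W Q => x.1 = [] ∧ U ⊆ Q ∧ ∀ B ∈ W, B ∉ Q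

/-- transitions of the row machine. Letters: `none` is the hash sign, `some none` a blank cell,
`some (some s)` a cell with the symbol `s`. -/
inductive Dl {T N : Type} {L : ℕ} (PL PR : Finset (RCRule T N)) :
    Kst T N L → Option (Option (Symbol T N)) → Option (Option (Symbol T N)) → Kst T N L → Prop
  | hash (q : Kst T N L) (hq : Acc q) : Dl PL PR q none none (Kst.pre ∅)
  | copy (P : Set N) (c : Option (Symbol T N)) :
      Dl PL PR (Kst.pre P) (some c) (some c) (Kst.pre (P ∪ nts c))
  | ruleL (P : Set N) (A : N) (x : {l : List (Symbol T N) // l.length ≤ L}) (U W : Finset N)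
      (h : (A, x.1, U, W) ∈ PL) (hU : ∀ B ∈ U, B ∈ P) (hW : ∀ B ∈ W, B ∉ P) :
      Dl PL PR (Kst.pre P) (some (some (Symbol.nonterminal A))) (some none) (Kst.wr x ∅ ∅ ∅)
  | ruleR (P : Set N) (A : N) (x : {l : List (Symbol T N) // l.length ≤ L}) (U W : Finset N)
      (h : (A, x.1, U, W) ∈ PR) :
      Dl PL PR (Kst.pre P) (some (some (Symbol.nonterminal A))) (some none)
        (Kst.wr x (↑U : Set N) (↑W : Set N) ∅)
  | skip (x : {l : List (Symbol T N) // l.length ≤ L}) (U W Q : Set N) :
      Dl PL PR (Kst.wr x U W Q) (some none) (some none) (Kst.wr x U W Q)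
  | write (y : Symbol T N) (x x' : {l : List (Symbol T N) // l.length ≤ L}) (U W Q : Set N)
      (hx : x.1 = y :: x'.1) :
      Dl PL PR (Kst.wr x U W Q) (some none) (some (some y)) (Kst.wr x' U W Q)
  | copy2 (x : {l : List (Symbol T N) // l.length ≤ L}) (U W Q : Set N)
      (c : Option (Symbol T N)) (hx : x.1 = []) :
      Dl PL PR (Kst.wr x U W Q) (some c) (some c) (Kst.wr x U W (Q ∪ nts c))

/-- start queues: blanks, the start symbol, blanks -/
def Ini {T N : Type} (S0 : N) : Bool → Option (Option (Symbol T N)) → Bool → Prop :=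
  fun b v c => (b = c ∧ v = some none) ∨
    (b = false ∧ c = true ∧ v = some (some (Symbol.nonterminal S0)))

/-- final queues: blanks and terminals -/
def OkF {T N : Type} (v : Option (Option (Symbol T N))) : Prop :=
  v = some none ∨ ∃ a : T, v = some (some (Symbol.terminal a))

/-- output of a letter -/
def Out {T N : Type} : Option (Option (Symbol T N)) → Option T
  | some (some (Symbol.terminal a)) => some a
  | _ => none

/-- the queue machine of a one-sided random context grammar -/
def GSys {T N : Type} (L : ℕ) (S0 : N) (PL PR : Finset (RCRule T N)) :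
    Sys T (Kst T N L) (Option (Option (Symbol T N))) where
  start := Kst.start
  acc := Acc
  δ := Dl PL PR
  ini := Ini S0
  okF := OkF
  out := Out
  hash := none

/-- the letters of a row -/
def emb2 {T N : Type} (rp : List (Option (Symbol T N) × Option (Symbol T N))) :
    List (Option (Option (Symbol T N)) × Option (Option (Symbol T N))) :=
  rp.map (fun p => (some p.1, some p.2))

/-- one row is rewritten to the next one -/
def RowRel {T N : Type} (L : ℕ) (S0 : N) (PL PR : Finset (RCRule T N))
    (r r' : List (Option (Symbol T N))) : Prop :=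
  ∃ rp : List (Option (Symbol T N) × Option (Symbol T N)),
    rp.map Prod.fst = r ∧ rp.map Prod.snd = r' ∧
    ∃ q : Kst T N L, Run (GSys L S0 PL PR) (Kst.pre ∅) (emb2 rp) q ∧ Acc q

end Pool.Agent.H522R4.RC
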