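import Pool.Agent.H522R4.RC.Defs

set_option autoImplicit false

namespace Pool.Agent.H522R4.RC.Stubs

open Pool.Agent.H522R4.RC

/-- T1 -/
theorem exists_rules {T K Θ : Type} [Finite T] [Finite K] [Finite Θ] (S : Sys T K Θ) :
    Finite (NT K Θ) ∧ ∃ PL : Finset (RCRule T (NT K Θ)),
      ∀ α β : List (Symbol T (NT K Θ)), HStep S α β ↔ GStep PL ∅ α β := by
  sorry

/-- T2 -/
theorem sound {T K Θ : Type} (S : Sys T K Θ) (hout : S.out S.hash = none) (w : List T)
    (h : Relation.ReflTransGen (HStep S) [Symbol.nonterminal NT.st]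
      (w.map Symbol.terminal)) : Spec S w := by
  sorry

/-- T3 -/
theorem complete {T K Θ : Type} (S : Sys T K Θ) (hout : S.out S.hash = none) (w : List T)
    (h : Spec S w) :
    Relation.ReflTransGen (HStep S) [Symbol.nonterminal NT.st] (w.map Symbol.terminal) := by
  sorry

/-- T4 -/
theorem row_sound {T N : Type} (L : ℕ) (S0 : N) (PL PR : Finset (RCRule T N))
    (r r' : List (Option (Symbol T N))) (h : RowRel L S0 PL PR r r') :
    GStep PL PR r.reduceOption r'.reduceOption := by
  sorry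

/-- T5 -/
theorem row_complete {T N : Type} (L : ℕ) (S0 : N) (PL PR : Finset (RCRule T N))
    (hL : ∀ R ∈ PL, R.2.1.length ≤ L) (hR : ∀ R ∈ PR, R.2.1.length ≤ L)
    (α : List (Symbol T N)) (r' : List (Option (Symbol T N)))
    (h : GStep PL PR α r'.reduceOption) :
    ∃ r r1 r2 : List (Option (Symbol T N)), r' = r1 ++ r2 ∧ r.reduceOption = α ∧
      RowRel L S0 PL PR r (r1 ++ none :: r2) := by
  sorry

/-- T6 -/
theorem row_insert {T N : Type} (L : ℕ) (S0 : N) (PL PR : Finset (RCRule T N))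
    (r1 r2 r' : List (Option (Symbol T N))) (h : RowRel L S0 PL PR (r1 ++ r2) r') :
    ∃ r1' r2' : List (Option (Symbol T N)), r' = r1' ++ r2' ∧
      RowRel L S0 PL PR (r1 ++ none :: r2) (r1' ++ none :: r2') := by
  sorry

/-- T7 -/
theorem deriv_rows {T N : Type} (L : ℕ) (S0 : N) (PL PR : Finset (RCRule T N))
    (hL : ∀ R ∈ PL, R.2.1.length ≤ L) (hR : ∀ R ∈ PR, R.2.1.length ≤ L)
    (h5 : ∀ (α : List (Symbol T N)) (r' : List (Option (Symbol T N))),
      GStep PL PR α r'.reduceOption →
      ∃ r r1 r2 : List (Option (Symbol T N)), r' = r1 ++ r2 ∧ r.reduceOption = α ∧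
        RowRel L S0 PL PR r (r1 ++ none :: r2))
    (h6 : ∀ (r1 r2 r' : List (Option (Symbol T N))), RowRel L S0 PL PR (r1 ++ r2) r' →
      ∃ r1' r2' : List (Option (Symbol T N)), r' = r1' ++ r2' ∧
        RowRel L S0 PL PR (r1 ++ none :: r2) (r1' ++ none :: r2'))
    (α β : List (Symbol T N)) (h : Relation.ReflTransGen (GStep PL PR) α β) :
    ∃ r t : List (Option (Symbol T N)), r.reduceOption = α ∧ t.reduceOption = β ∧
      Relation.ReflTransGen (RowRel L S0 PL PR) r t := by
  sorry

/-- T8 -/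
theorem rows_spec {T N : Type} (L : ℕ) (S0 : N) (PL PR : Finset (RCRule T N)) (w : List T)
    (r t : List (Option (Symbol T N))) (hr : r.reduceOption = [Symbol.nonterminal S0])
    (ht : t.reduceOption = w.map Symbol.terminal)
    (h : Relation.ReflTransGen (RowRel L S0 PL PR) r t) :
    Spec (GSys L S0 PL PR) w := by
  sorry

/-- T9 -/
theorem spec_rows {T N : Type} (L : ℕ) (S0 : N) (PL PR : Finset (RCRule T N)) (w : List T)
    (h : Spec (GSys L S0 PL PR) w) :
    ∃ r t : List (Option (Symbol T N)), r.reduceOption = [Symbol.nonterminal S0] ∧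
      t.reduceOption = w.map Symbol.terminal ∧
      Relation.ReflTransGen (RowRel L S0 PL PR) r t := by
  sorry

end Pool.Agent.H522R4.RC.Stubs
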