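import Pool.Agent.H522R4.RC.Defs

set_option autoImplicit false

namespace Pool.Agent.H522R4.RC

variable {T K Θ : Type}

theorem T1_finite [Finite K] [Finite Θ] : Finite (NT K Θ) := by
  let f : NT K Θ → Unit ⊕ Bool ⊕ K ⊕ Option Θ ⊕ (Option Θ × Option Θ) ⊕ Option Θ ⊕ Option Θ ⊕
      Option Θ := fun x =>
    match x with
    | NT.st => Sum.inl ()
    | NT.sp b => Sum.inr (Sum.inl b)
    | NT.ct q => Sum.inr (Sum.inr (Sum.inl q))
    | NT.I a => Sum.inr (Sum.inr (Sum.inr (Sum.inl a)))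
    | NT.M a b => Sum.inr (Sum.inr (Sum.inr (Sum.inr (Sum.inl (a, b)))))
    | NT.M' a => Sum.inr (Sum.inr (Sum.inr (Sum.inr (Sum.inr (Sum.inl a)))))
    | NT.F a => Sum.inr (Sum.inr (Sum.inr (Sum.inr (Sum.inr (Sum.inr (Sum.inl a))))))
    | NT.A a => Sum.inr (Sum.inr (Sum.inr (Sum.inr (Sum.inr (Sum.inr (Sum.inr a))))))
  have hf : Function.Injective f := by
    intro x y h
    cases x <;> cases y <;> simp_all [f]
  exact Finite.of_injective f hf

/-- the finite set of the nonterminals with a property -/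
noncomputable def T1_fs [Finite K] [Finite Θ] (P : NT K Θ → Prop) : Finset (NT K Θ) :=
  have := T1_finite (K := K) (Θ := Θ)
  (Set.toFinite {B | P B}).toFinset

theorem T1_mem [Finite K] [Finite Θ] (P : NT K Θ → Prop) (B : NT K Θ) :
    B ∈ T1_fs P ↔ P B := by
  unfold T1_fs
  simp

/-- the rules -/
inductive T1_Is [Finite K] [Finite Θ] (S : Sys T K Θ) : RCRule T (NT K Θ) → Prop
  | start : T1_Is S (NT.st, [.nonterminal (NT.I (some S.hash)), .nonterminal (NT.I none),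
      .nonterminal (NT.sp false)], ∅, ∅)
  | spine (b : Bool) (x : Θ) (c : Bool) (t : Θ) (hi : S.ini b x c) (ho : S.okF t) :
      T1_Is S (NT.sp b, [.nonterminal (NT.I (some x)), .nonterminal (NT.I none),
        .nonterminal (NT.sp c), .nonterminal (NT.F (some t)), .nonterminal (NT.F none)], ∅,
        T1_fs (fun B => ∃ e, B = NT.sp e))
  | spineEnd : T1_Is S (NT.sp true, [.nonterminal (NT.ct S.start),
      .nonterminal (NT.F (some S.hash)), .nonterminal (NT.F none)], ∅,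
      T1_fs (fun B => ∃ e, B = NT.sp e))
  | ctr (q : K) (a b : Θ) (r : K) (hd : S.δ q a b r) :
      T1_Is S (NT.ct q, [.nonterminal (NT.M (some a) (some b)), .nonterminal (NT.M none none),
        .nonterminal (NT.ct r)], ∅, T1_fs (fun B => ∃ e, B = NT.ct e))
  | ctrEnd (q : K) (hq : S.acc q) : T1_Is S (NT.ct q, [], ∅, T1_fs (fun B => ∃ e, B = NT.ct e))
  | speakI (a : Option Θ) : T1_Is S (NT.I a, [.nonterminal (NT.A a)], ∅, T1_fs (fun _ => True))
  | speakM (a : Option Θ) : T1_Is S (NT.M' a, [.nonterminal (NT.A a)], ∅, T1_fs (fun _ => True))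
  | erase (a : Option Θ) : T1_Is S (NT.A a, [], ∅, T1_fs (fun _ => True))
  | listenM (a b : Option Θ) : T1_Is S (NT.M a b, [.nonterminal (NT.M' b)], {NT.A a},
      T1_fs (fun B => ∃ c d, B = NT.M c d))
  | listenF (a : Option Θ) : T1_Is S (NT.F a, outL S a, {NT.A a},
      T1_fs (fun B => (∃ c d, B = NT.M c d) ∨ (∃ c, B = NT.F c) ∨ (∃ e, B = NT.sp e) ∨
        (∃ e, B = NT.ct e) ∨ B = NT.st))

theorem T1_isfin [Finite T] [Finite K] [Finite Θ] (S : Sys T K Θ) :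
    {ρ | T1_Is S ρ}.Finite := by
  let rule : Unit ⊕ (Bool × Θ × Bool × Θ) ⊕ Unit ⊕ (K × Θ × Θ × K) ⊕ K ⊕ Option Θ ⊕ Option Θ ⊕
      Option Θ ⊕ (Option Θ × Option Θ) ⊕ Option Θ → RCRule T (NT K Θ) := fun j =>
    match j with
    | Sum.inl _ => (NT.st, [.nonterminal (NT.I (some S.hash)), .nonterminal (NT.I none),
      .nonterminal (NT.sp false)], ∅, ∅)
    | Sum.inr (Sum.inl (b, x, c, t)) => (NT.sp b, [.nonterminal (NT.I (some x)),
        .nonterminal (NT.I none), .nonterminal (NT.sp c), .nonterminal (NT.F (some t)),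
        .nonterminal (NT.F none)], ∅, T1_fs (fun B => ∃ e, B = NT.sp e))
    | Sum.inr (Sum.inr (Sum.inl _)) => (NT.sp true, [.nonterminal (NT.ct S.start),
      .nonterminal (NT.F (some S.hash)), .nonterminal (NT.F none)], ∅,
      T1_fs (fun B => ∃ e, B = NT.sp e))
    | Sum.inr (Sum.inr (Sum.inr (Sum.inl (q, a, b, r)))) =>
      (NT.ct q, [.nonterminal (NT.M (some a) (some b)), .nonterminal (NT.M none none),
        .nonterminal (NT.ct r)], ∅, T1_fs (fun B => ∃ e, B = NT.ct e))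
    | Sum.inr (Sum.inr (Sum.inr (Sum.inr (Sum.inl q)))) =>
      (NT.ct q, [], ∅, T1_fs (fun B => ∃ e, B = NT.ct e))
    | Sum.inr (Sum.inr (Sum.inr (Sum.inr (Sum.inr (Sum.inl a))))) =>
      (NT.I a, [.nonterminal (NT.A a)], ∅, T1_fs (fun _ => True))
    | Sum.inr (Sum.inr (Sum.inr (Sum.inr (Sum.inr (Sum.inr (Sum.inl a)))))) =>
      (NT.M' a, [.nonterminal (NT.A a)], ∅, T1_fs (fun _ => True))
    | Sum.inr (Sum.inr (Sum.inr (Sum.inr (Sum.inr (Sum.inr (Sum.inr (Sum.inl a))))))) =>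
      (NT.A a, [], ∅, T1_fs (fun _ => True))
    | Sum.inr (Sum.inr (Sum.inr (Sum.inr (Sum.inr (Sum.inr (Sum.inr (Sum.inr
        (Sum.inl (a, b))))))))) =>
      (NT.M a b, [.nonterminal (NT.M' b)], {NT.A a}, T1_fs (fun B => ∃ c d, B = NT.M c d))
    | Sum.inr (Sum.inr (Sum.inr (Sum.inr (Sum.inr (Sum.inr (Sum.inr (Sum.inr (Sum.inr a)))))))) =>
      (NT.F a, outL S a, {NT.A a},
      T1_fs (fun B => (∃ c d, B = NT.M c d) ∨ (∃ c, B = NT.F c) ∨ (∃ e, B = NT.sp e) ∨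
        (∃ e, B = NT.ct e) ∨ B = NT.st))
  refine (Set.finite_range rule).subset ?_
  intro ρ hρ
  cases hρ with
  | start => exact ⟨Sum.inl (), rfl⟩
  | spine b x c t hi ho => exact ⟨Sum.inr (Sum.inl (b, x, c, t)), rfl⟩
  | spineEnd => exact ⟨Sum.inr (Sum.inr (Sum.inl ())), rfl⟩
  | ctr q a b r hd => exact ⟨Sum.inr (Sum.inr (Sum.inr (Sum.inl (q, a, b, r)))), rfl⟩
  | ctrEnd q hq => exact ⟨Sum.inr (Sum.inr (Sum.inr (Sum.inr (Sum.inl q)))), rfl⟩
  | speakI a => exact ⟨Sum.inr (Sum.inr (Sum.inr (Sum.inr (Sum.inr (Sum.inl a))))), rfl⟩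
  | speakM a =>
    exact ⟨Sum.inr (Sum.inr (Sum.inr (Sum.inr (Sum.inr (Sum.inr (Sum.inl a)))))), rfl⟩
  | erase a =>
    exact ⟨Sum.inr (Sum.inr (Sum.inr (Sum.inr (Sum.inr (Sum.inr (Sum.inr (Sum.inl a))))))), rfl⟩
  | listenM a b =>
    exact ⟨Sum.inr (Sum.inr (Sum.inr (Sum.inr (Sum.inr (Sum.inr (Sum.inr (Sum.inr
      (Sum.inl (a, b))))))))), rfl⟩
  | listenF a =>
    exact ⟨Sum.inr (Sum.inr (Sum.inr (Sum.inr (Sum.inr (Sum.inr (Sum.inr (Sum.inr
      (Sum.inr a)))))))), rfl⟩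

/-- T1 -/
theorem exists_rules {T K Θ : Type} [Finite T] [Finite K] [Finite Θ] (S : Sys T K Θ) :
    Finite (NT K Θ) ∧ ∃ PL : Finset (RCRule T (NT K Θ)),
      ∀ α β : List (Symbol T (NT K Θ)), HStep S α β ↔ GStep PL ∅ α β := by
  refine ⟨T1_finite, (T1_isfin S).toFinset, ?_⟩
  have hmem : ∀ ρ, ρ ∈ (T1_isfin S).toFinset ↔ T1_Is S ρ := fun ρ => by simp
  intro α β
  constructor
  · intro h
    cases h with
    | start u v =>
      exact ⟨u, v, _, _, _, _, rfl, rfl, Or.inl ⟨(hmem _).2 (T1_Is.start), by simp, by simp⟩⟩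
    | spine u v b x c t hi ho hu =>
      refine ⟨u, v, _, _, _, _, rfl, rfl, Or.inl ⟨(hmem _).2 (T1_Is.spine b x c t hi ho), by simp,
        fun B hB => ?_⟩⟩
      obtain ⟨e, rfl⟩ := (T1_mem _ _).1 hB
      exact hu e
    | spineEnd u v hu =>
      refine ⟨u, v, _, _, _, _, rfl, rfl, Or.inl ⟨(hmem _).2 (T1_Is.spineEnd), by simp,
        fun B hB => ?_⟩⟩
      obtain ⟨e, rfl⟩ := (T1_mem _ _).1 hB
      exact hu e
    | ctr u v q a b r hd hu =>
      refine ⟨u, v, _, _, _, _, rfl, rfl, Or.inl ⟨(hmem _).2 (T1_Is.ctr q a b r hd), by simp,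
        fun B hB => ?_⟩⟩
      obtain ⟨e, rfl⟩ := (T1_mem _ _).1 hB
      exact hu e
    | ctrEnd u v q hq hu =>
      refine ⟨u, v, _, _, _, _, rfl, rfl, Or.inl ⟨(hmem _).2 (T1_Is.ctrEnd q hq), by simp,
        fun B hB => ?_⟩⟩
      obtain ⟨e, rfl⟩ := (T1_mem _ _).1 hB
      exact hu e
    | speakI u v a hu =>
      exact ⟨u, v, _, _, _, _, rfl, rfl, Or.inl ⟨(hmem _).2 (T1_Is.speakI a), by simp,
        fun B _ => hu B⟩⟩
    | speakM u v a hu =>
      exact ⟨u, v, _, _, _, _, rfl, rfl, Or.inl ⟨(hmem _).2 (T1_Is.speakM a), by simp,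
        fun B _ => hu B⟩⟩
    | erase u v a hu =>
      exact ⟨u, v, _, _, _, _, rfl, rfl, Or.inl ⟨(hmem _).2 (T1_Is.erase a), by simp,
        fun B _ => hu B⟩⟩
    | listenM u v a b ha hu =>
      refine ⟨u, v, _, _, _, _, rfl, rfl, Or.inl ⟨(hmem _).2 (T1_Is.listenM a b),
        fun B hB => ?_, fun B hB => ?_⟩⟩
      · rw [Finset.mem_singleton] at hB
        rw [hB]; exact ha
      · obtain ⟨c, d, rfl⟩ := (T1_mem _ _).1 hB
        exact hu c d
    | listenF u v a ha hu1 hu2 hu3 hu4 hu5 =>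
      refine ⟨u, v, _, _, _, _, rfl, rfl, Or.inl ⟨(hmem _).2 (T1_Is.listenF a),
        fun B hB => ?_, fun B hB => ?_⟩⟩
      · rw [Finset.mem_singleton] at hB
        rw [hB]; exact ha
      · rcases (T1_mem _ _).1 hB with ⟨c, d, rfl⟩ | ⟨c, rfl⟩ | ⟨e, rfl⟩ | ⟨e, rfl⟩ | rfl
        · exact hu1 c d
        · exact hu2 c
        · exact hu3 e
        · exact hu4 e
        · exact hu5
  · rintro ⟨u, v, A, x, U, W, rfl, rfl, (⟨h, hU, hW⟩ | ⟨h, _⟩)⟩
    · have h' := (hmem _).1 h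
      cases h' with
      | start => exact HStep.start u v
      | spine b x c t hi ho =>
        exact HStep.spine u v b x c t hi ho (fun e => hW _ ((T1_mem _ _).2 ⟨e, rfl⟩))
      | spineEnd => exact HStep.spineEnd u v (fun e => hW _ ((T1_mem _ _).2 ⟨e, rfl⟩))
      | ctr q a b r hd =>
        exact HStep.ctr u v q a b r hd (fun e => hW _ ((T1_mem _ _).2 ⟨e, rfl⟩))
      | ctrEnd q hq => exact HStep.ctrEnd u v q hq (fun e => hW _ ((T1_mem _ _).2 ⟨e, rfl⟩))
      | speakI a => exact HStep.speakI u v a (fun B => hW _ ((T1_mem _ _).2 trivial))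
      | speakM a => exact HStep.speakM u v a (fun B => hW _ ((T1_mem _ _).2 trivial))
      | erase a => exact HStep.erase u v a (fun B => hW _ ((T1_mem _ _).2 trivial))
      | listenM a b =>
        exact HStep.listenM u v a b (hU _ (Finset.mem_singleton_self _))
          (fun c d => hW _ ((T1_mem _ _).2 ⟨c, d, rfl⟩))
      | listenF a =>
        exact HStep.listenF u v a (hU _ (Finset.mem_singleton_self _))
          (fun c d => hW _ ((T1_mem _ _).2 (Or.inl ⟨c, d, rfl⟩)))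
          (fun c => hW _ ((T1_mem _ _).2 (Or.inr (Or.inl ⟨c, rfl⟩))))
          (fun e => hW _ ((T1_mem _ _).2 (Or.inr (Or.inr (Or.inl ⟨e, rfl⟩)))))
          (fun e => hW _ ((T1_mem _ _).2 (Or.inr (Or.inr (Or.inr (Or.inl ⟨e, rfl⟩))))))
          (hW _ ((T1_mem _ _).2 (Or.inr (Or.inr (Or.inr (Or.inr rfl))))))
    · exact absurd h (Finset.notMem_empty _)

end Pool.Agent.H522R4.RC
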