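import Pool.Agent.H522R4.RC.Defs

set_option autoImplicit false

namespace Pool.Agent.H522R4.RC

namespace T2

variable {T K Θ : Type}

theorem split_first {α : Type} (p : α → Prop) : ∀ {l1 l2 u v : List α} {a b : α},
    l1 ++ a :: l2 = u ++ b :: v → (∀ x ∈ l1, ¬ p x) → (∀ x ∈ u, ¬ p x) → p a → p b →
    l1 = u ∧ a = b ∧ l2 = v := by
  intro l1
  induction l1 with
  | nil =>
    intro l2 u v a b h h1 hu pa pb
    cases u with
    | nil => simpa using h
    | cons c u =>
      simp only [List.nil_append, List.cons_append, List.cons.injEq] at h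
      exact absurd pa (h.1 ▸ hu c (by simp))
  | cons d l1 ih =>
    intro l2 u v a b h h1 hu pa pb
    cases u with
    | nil =>
      simp only [List.nil_append, List.cons_append, List.cons.injEq] at h
      exact absurd pb (h.1 ▸ h1 d (by simp))
    | cons c u =>
      simp only [List.cons_append, List.cons.injEq] at h
      obtain ⟨e1, e2, e3⟩ := ih h.2 (fun x hx => h1 x (by simp [hx])) (fun x hx => hu x (by simp [hx])) pa pb
      exact ⟨by rw [h.1, e1], e2, e3⟩

theorem sing {α : Type} {u v : List α} {a b : α} (h : u ++ [a] ++ v = [b]) :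
    u = [] ∧ v = [] ∧ a = b := by
  cases u with
  | nil => simp at h; exact ⟨rfl, h.2, h.1⟩
  | cons c u => simp at h

theorem inter_cons (a : Θ) (l : List Θ) : inter (a :: l) = some a :: none :: inter l := rfl

theorem inter_append (l m : List Θ) : inter (l ++ m) = inter l ++ inter m := by
  simp [inter]

theorem inter_length (l : List Θ) : (inter l).length = 2 * l.length := by
  induction l with
  | nil => rfl
  | cons a l ih => rw [inter_cons]; simp [ih]; ring

theorem inter_inj : ∀ {l m : List Θ}, inter l = inter m → l = m := by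
  intro l
  induction l with
  | nil =>
    intro m h
    cases m with
    | nil => rfl
    | cons a m => simp [inter] at h
  | cons a l ih =>
    intro m h
    cases m with
    | nil => simp [inter] at h
    | cons b m =>
      rw [inter_cons, inter_cons] at h
      simp only [List.cons.injEq, Option.some.injEq, true_and] at h
      rw [h.1, ih h.2]

theorem no_adj : ∀ (l : List Θ) (X Y : List (Option Θ)) (a : Option Θ),
    inter l = X ++ a :: a :: Y → False := by
  intro l
  induction l with
  | nil => intro X Y a h; simp [inter] at h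
  | cons b l ih =>
    intro X Y a h
    rw [inter_cons] at h
    match X with
    | [] =>
      simp only [List.nil_append, List.cons.injEq] at h
      rw [← h.2.1] at h; simp at h
    | [x] =>
      simp only [List.cons_append, List.nil_append, List.cons.injEq] at h
      cases l with
      | nil => simp [inter] at h
      | cons c l =>
        rw [inter_cons] at h
        simp only [List.cons.injEq] at h
        rw [← h.2.1] at h; simp at h
    | x :: y :: X =>
      simp only [List.cons_append, List.cons.injEq] at h
      exact ih X Y a h.2.2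

inductive Mid (K : Type) : Type
  | sp : Bool → Mid K
  | ct : K → Mid K
  | no : Mid K

def midL : Mid K → List (Symbol T (NT K Θ))
  | .sp b => [.nonterminal (.sp b)]
  | .ct q => [.nonterminal (.ct q)]
  | .no => []

def emb (act : Option (Option Θ)) (xs ys : List (Option Θ)) (zs : List (Option Θ × Option Θ))
    (mid : Mid K) (f : List T) (us : List (Option Θ)) : List (Symbol T (NT K Θ)) :=
  act.toList.map (fun v => .nonterminal (.A v)) ++ (xs.map (fun v => .nonterminal (.I v)) ++
    (ys.map (fun v => .nonterminal (.M' v)) ++ (zs.map (fun p => .nonterminal (.M p.1 p.2)) ++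
      (midL mid ++ (f.map .terminal ++ us.map (fun v => .nonterminal (.F v)))))))

def Heard (P : List (Option Θ)) (act : Option (Option Θ)) (H : List (Option Θ)) : Prop :=
  H.Sublist P ∨ ∃ c H0, act = some c ∧ H = H0 ++ [c] ∧ H0.Sublist P

def MidOk (S : Sys T K Θ) (v0 t0 : List Θ) (ps : List (Θ × Θ)) (ys : List (Option Θ))
    (fl us : List (Option Θ)) : Mid K → Prop
  | .sp b => Init S false v0 b ∧ ps = [] ∧ ys = [] ∧ fl = [] ∧ us = inter t0
  | .ct q => Init S false v0 true ∧ Run S S.start ps q ∧ fl = [] ∧ us = inter (S.hash :: t0)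
  | .no => Init S false v0 true ∧ (∃ q, Run S S.start ps q ∧ S.acc q) ∧
      fl ++ us = inter (S.hash :: t0)

structure Good (S : Sys T K Θ) (act : Option (Option Θ)) (xs ys : List (Option Θ))
    (zs : List (Option Θ × Option Θ)) (mid : Mid K) (f : List T) (us : List (Option Θ))
    (P H fl : List (Option Θ)) (v0 t0 : List Θ) (ps : List (Θ × Θ)) : Prop where
  hsp : P ++ (act.toList ++ (xs ++ (ys ++ zs.map Prod.snd))) =
    inter (S.hash :: v0 ++ ps.map Prod.snd)
  hli : H ++ zs.map Prod.fst = inter (ps.map Prod.fst) ++ fl
  hfz : fl ≠ [] → zs = []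
  hf : f = fl.filterMap (fun v => v.bind S.out)
  hh : Heard P act H
  hm : MidOk S v0 t0 ps ys fl us mid
  hok : ∀ t ∈ t0, S.okF t
  hlen : v0.length = t0.length

def Inv (S : Sys T K Θ) (α : List (Symbol T (NT K Θ))) : Prop :=
  α = [.nonterminal .st] ∨ ∃ act xs ys zs mid f us P H fl v0 t0 ps,
    α = emb act xs ys zs mid f us ∧ Good S act xs ys zs mid f us P H fl v0 t0 ps

theorem emb_first {act : Option (Option Θ)} {xs ys : List (Option Θ)}
    {zs : List (Option Θ × Option Θ)}
    {mid : Mid K} {f : List T} {us : List (Option Θ)} {u v : List (Symbol T (NT K Θ))}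
    {X : NT K Θ}
    (hE : u ++ [.nonterminal X] ++ v = emb act xs ys zs mid f us)
    (hu : ∀ B, Symbol.nonterminal B ∉ u) :
    (∃ c, act = some c ∧ X = .A c ∧ u = [] ∧ v = emb none xs ys zs mid f us) ∨
    (act = none ∧ ∃ x xs', xs = x :: xs' ∧ X = .I x ∧ u = [] ∧ v = emb none xs' ys zs mid f us) ∨
    (act = none ∧ xs = [] ∧ ∃ y ys', ys = y :: ys' ∧ X = .M' y ∧ u = [] ∧
      v = emb none [] ys' zs mid f us) ∨
    (∃ a b, X = .M a b) ∨ (∃ b, X = .sp b) ∨ (∃ q, X = .ct q) ∨ (∃ a, X = .F a) := by
  have hu' : ∀ x ∈ u, ¬ (∃ B, x = Symbol.nonterminal B) := by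
    rintro x hx ⟨B, rfl⟩; exact hu B hx
  have hE' : emb act xs ys zs mid f us = u ++ .nonterminal X :: v := by
    rw [← hE]; simp
  cases act with
  | some c =>
    left
    obtain ⟨h1, h2, h3⟩ := split_first (fun x => ∃ B, x = Symbol.nonterminal B)
      (l1 := []) (l2 := emb none xs ys zs mid f us) (a := .nonterminal (.A c))
      (by rw [← hE']; simp [emb]) (by simp) hu' ⟨_, rfl⟩ ⟨_, rfl⟩
    exact ⟨c, rfl, by simpa using h2.symm, h1.symm, h3.symm⟩
  | none =>
    cases xs with
    | cons x xs =>
      right; left
      obtain ⟨h1, h2, h3⟩ := split_first (fun x => ∃ B, x = Symbol.nonterminal B)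
        (l1 := []) (l2 := emb none xs ys zs mid f us) (a := .nonterminal (.I x))
        (by rw [← hE']; simp [emb]) (by simp) hu' ⟨_, rfl⟩ ⟨_, rfl⟩
      exact ⟨rfl, x, xs, rfl, by simpa using h2.symm, h1.symm, h3.symm⟩
    | nil =>
      cases ys with
      | cons y ys =>
        right; right; left
        obtain ⟨h1, h2, h3⟩ := split_first (fun x => ∃ B, x = Symbol.nonterminal B)
          (l1 := []) (l2 := emb none [] ys zs mid f us) (a := .nonterminal (.M' y))
          (by rw [← hE']; simp [emb]) (by simp) hu' ⟨_, rfl⟩ ⟨_, rfl⟩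
        exact ⟨rfl, rfl, y, ys, rfl, by simpa using h2.symm, h1.symm, h3.symm⟩
      | nil =>
        right; right; right
        cases zs with
        | cons z zs =>
          left
          obtain ⟨h1, h2, h3⟩ := split_first (fun x => ∃ B, x = Symbol.nonterminal B)
            (l1 := []) (l2 := emb none [] [] zs mid f us) (a := .nonterminal (.M z.1 z.2))
            (by rw [← hE']; simp [emb]) (by simp) hu' ⟨_, rfl⟩ ⟨_, rfl⟩
          exact ⟨_, _, by simpa using h2.symm⟩
        | nil =>
          right
          cases mid with
          | sp b =>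
            left
            obtain ⟨h1, h2, h3⟩ := split_first (fun x => ∃ B, x = Symbol.nonterminal B)
              (l1 := []) (l2 := emb (K := K) none [] [] [] .no f us) (a := .nonterminal (.sp b))
              (by rw [← hE']; simp [emb, midL]) (by simp) hu' ⟨_, rfl⟩ ⟨_, rfl⟩
            exact ⟨_, by simpa using h2.symm⟩
          | ct q =>
            right; left
            obtain ⟨h1, h2, h3⟩ := split_first (fun x => ∃ B, x = Symbol.nonterminal B)
              (l1 := []) (l2 := emb (K := K) none [] [] [] .no f us) (a := .nonterminal (.ct q))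
              (by rw [← hE']; simp [emb, midL]) (by simp) hu' ⟨_, rfl⟩ ⟨_, rfl⟩
            exact ⟨_, by simpa using h2.symm⟩
          | no =>
            right; right
            cases us with
            | cons a us =>
              obtain ⟨h1, h2, h3⟩ := split_first (fun x => ∃ B, x = Symbol.nonterminal B)
                (l1 := f.map .terminal) (l2 := us.map (fun v => .nonterminal (.F v)))
                (a := .nonterminal (.F a))
                (by rw [← hE']; simp [emb, midL]) (by simp) hu' ⟨_, rfl⟩ ⟨_, rfl⟩
              exact ⟨_, by simpa using h2.symm⟩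
            | nil =>
              exfalso
              have : Symbol.nonterminal X ∈ (emb none [] [] [] .no f [] : List (Symbol T (NT K Θ))) := by
                rw [hE']; simp
              simp [emb, midL] at this

theorem inv_step (S : Sys T K Θ) {α β : List (Symbol T (NT K Θ))} (hI : Inv S α)
    (h : HStep S α β) : Inv S β := by
  cases h with
  | start u v =>
    right
    rcases hI with h0 | ⟨act, xs, ys, zs, mid, f, us, P, H, fl, v0, t0, ps, hE, hG⟩
    · obtain ⟨rfl, rfl, -⟩ := sing h0
      refine ⟨none, [some S.hash, none], [], [], .sp false, [], [], [], [], [], [], [], [], ?_, ?_⟩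
      · simp [emb, midL]
      · constructor
        · simp [inter]
        · simp [inter]
        · simp
        · simp
        · left; simp
        · simp [MidOk, Init, inter]
        · simp
        · simp
    · exfalso
      have : Symbol.nonterminal NT.st ∈ (emb act xs ys zs mid f us : List (Symbol T (NT K Θ))) := by
        rw [← hE]; simp
      cases mid <;> simp [emb, midL] at this
  | spine u v b x c t hi ho hu =>
    right
    rcases hI with h0 | ⟨act, xs, ys, zs, mid, f, us, P, H, fl, v0, t0, ps, hE, hG⟩
    · obtain ⟨-, -, h⟩ := sing h0; simp at h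
    have hmem : Symbol.nonterminal (NT.sp b) ∈ (emb act xs ys zs mid f us : List (Symbol T (NT K Θ))) := by
      rw [← hE]; simp
    have hmid : mid = .sp b := by
      cases mid <;> simp [emb, midL] at hmem
      rw [hmem]
    subst hmid
    obtain ⟨hsp, hli, hfz, hf, hh, hm, hok, hlen⟩ := hG
    obtain ⟨hI0, rfl, rfl, rfl, rfl⟩ := hm
    have hH : H = [] ∧ zs = [] := by
      have := hli
      simp [inter] at this
      exact this
    obtain ⟨rfl, rfl⟩ := hH
    have hf' : f = [] := by simpa using hf
    subst hf'
    obtain ⟨h1, -, h3⟩ := split_first (fun s => ∃ e : Bool, s = Symbol.nonterminal (NT.sp e))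
      (l1 := act.toList.map (fun v => .nonterminal (.A v)) ++ xs.map (fun v => .nonterminal (.I v)))
      (l2 := (inter t0).map (fun v => .nonterminal (.F v))) (a := .nonterminal (.sp b))
      (u := u) (v := v) (b := .nonterminal (.sp b))
      (by
        have : u ++ Symbol.nonterminal (NT.sp b) :: v = u ++ [Symbol.nonterminal (NT.sp b)] ++ v := by simp
        rw [this, hE]; simp [emb, midL])
      (by
        intro s hs
        rintro ⟨e, rfl⟩
        simp at hs)
      (by rintro s hs ⟨e, rfl⟩; exact hu e hs) ⟨_, rfl⟩ ⟨_, rfl⟩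
    subst h1 h3
    refine ⟨act, xs ++ [some x, none], [], [], .sp c, [], some t :: none :: inter t0, P, [], [],
      v0 ++ [x], t :: t0, [], ?_, ?_⟩
    · simp [emb, midL]
    · constructor
      · have : P ++ (act.toList ++ xs) = inter (S.hash :: v0) := by simpa using hsp
        simp only [List.append_nil, List.map_nil, List.append_assoc] at this ⊢
        have e : P ++ (act.toList ++ (xs ++ [some x, none])) = (P ++ (act.toList ++ xs)) ++ [some x, none] := by simp
        rw [e, this, ← List.cons_append, inter_append]
        rfl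
      · simp [inter]
      · simp
      · simp
      · left; simp
      · refine ⟨?_, rfl, rfl, rfl, rfl⟩
        rw [init_snoc]; exact ⟨b, hI0, hi⟩
      · intro s hs
        rcases List.mem_cons.1 hs with rfl | hs
        · exact ho
        · exact hok s hs
      · simp [hlen]
  | spineEnd u v hu =>
    right
    rcases hI with h0 | ⟨act, xs, ys, zs, mid, f, us, P, H, fl, v0, t0, ps, hE, hG⟩
    · obtain ⟨-, -, h⟩ := sing h0; simp at h
    have hmem : Symbol.nonterminal (NT.sp true) ∈ (emb act xs ys zs mid f us : List (Symbol T (NT K Θ))) := by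
      rw [← hE]; simp
    have hmid : mid = .sp true := by
      cases mid <;> simp [emb, midL] at hmem
      rw [hmem]
    subst hmid
    obtain ⟨hsp, hli, hfz, hf, hh, hm, hok, hlen⟩ := hG
    obtain ⟨hI0, rfl, rfl, rfl, rfl⟩ := hm
    have hH : H = [] ∧ zs = [] := by
      have := hli
      simp [inter] at this
      exact this
    obtain ⟨rfl, rfl⟩ := hH
    have hf' : f = [] := by simpa using hf
    subst hf'
    obtain ⟨h1, -, h3⟩ := split_first (fun s => ∃ e : Bool, s = Symbol.nonterminal (NT.sp e))
      (l1 := act.toList.map (fun v => .nonterminal (.A v)) ++ xs.map (fun v => .nonterminal (.I v)))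
      (l2 := (inter t0).map (fun v => .nonterminal (.F v))) (a := .nonterminal (.sp true))
      (u := u) (v := v) (b := .nonterminal (.sp true))
      (by
        have : u ++ Symbol.nonterminal (NT.sp true) :: v = u ++ [Symbol.nonterminal (NT.sp true)] ++ v := by simp
        rw [this, hE]; simp [emb, midL])
      (by
        intro s hs
        rintro ⟨e, rfl⟩
        simp at hs)
      (by rintro s hs ⟨e, rfl⟩; exact hu e hs) ⟨_, rfl⟩ ⟨_, rfl⟩
    subst h1 h3
    refine ⟨act, xs, [], [], .ct S.start, [], some S.hash :: none :: inter t0, P, [], [],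
      v0, t0, [], ?_, ?_⟩
    · simp [emb, midL]
    · exact ⟨hsp, by simp [inter], by simp, by simp, by left; simp,
        ⟨hI0, rfl, rfl, rfl⟩, hok, hlen⟩
  | ctr u v q a b r hd hu =>
    right
    rcases hI with h0 | ⟨act, xs, ys, zs, mid, f, us, P, H, fl, v0, t0, ps, hE, hG⟩
    · obtain ⟨-, -, h⟩ := sing h0; simp at h
    have hmem : Symbol.nonterminal (NT.ct q) ∈ (emb act xs ys zs mid f us : List (Symbol T (NT K Θ))) := by
      rw [← hE]; simp
    have hmid : mid = .ct q := by
      cases mid <;> simp [emb, midL] at hmem
      rw [hmem]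
    subst hmid
    obtain ⟨hsp, hli, hfz, hf, hh, hm, hok, hlen⟩ := hG
    obtain ⟨hI0, hR, rfl, rfl⟩ := hm
    have hf' : f = [] := by simpa using hf
    subst hf'
    obtain ⟨h1, -, h3⟩ := split_first (fun s => ∃ e : K, s = Symbol.nonterminal (NT.ct e))
      (l1 := act.toList.map (fun v => .nonterminal (.A v)) ++ (xs.map (fun v => .nonterminal (.I v))
        ++ (ys.map (fun v => .nonterminal (.M' v)) ++ zs.map (fun p => .nonterminal (.M p.1 p.2)))))
      (l2 := (inter (S.hash :: t0)).map (fun v => .nonterminal (.F v))) (a := .nonterminal (.ct q))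
      (u := u) (v := v) (b := .nonterminal (.ct q))
      (by
        have : u ++ Symbol.nonterminal (NT.ct q) :: v = u ++ [Symbol.nonterminal (NT.ct q)] ++ v := by simp
        rw [this, hE]; simp [emb, midL])
      (by
        intro s hs
        rintro ⟨e, rfl⟩
        simp at hs)
      (by rintro s hs ⟨e, rfl⟩; exact hu e hs) ⟨_, rfl⟩ ⟨_, rfl⟩
    subst h1 h3
    refine ⟨act, xs, ys, zs ++ [(some a, some b), (none, none)], .ct r, [], inter (S.hash :: t0),
      P, H, [], v0, t0, ps ++ [(a, b)], ?_, ?_⟩
    · simp [emb, midL]
    · constructor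
      · have e : P ++ (act.toList ++ (xs ++ (ys ++ (zs ++ [(some a, some b), (none, none)]).map Prod.snd)))
            = (P ++ (act.toList ++ (xs ++ (ys ++ zs.map Prod.snd)))) ++ [some b, none] := by simp
        have e2 : inter (S.hash :: v0 ++ (ps ++ [(a, b)]).map Prod.snd) =
            inter (S.hash :: v0 ++ ps.map Prod.snd) ++ [some b, none] := by
          rw [List.map_append, ← List.append_assoc, inter_append]; rfl
        rw [e, hsp, e2]
      · have e : H ++ (zs ++ [(some a, some b), (none, none)]).map Prod.fst
            = (H ++ zs.map Prod.fst) ++ [some a, none] := by simp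
        rw [e, hli, List.map_append, inter_append]
        simp [inter]
      · simp
      · simp
      · exact hh
      · refine ⟨hI0, ?_, rfl, rfl⟩
        rw [run_snoc]; exact ⟨q, hR, hd⟩
      · exact hok
      · exact hlen
  | ctrEnd u v q hq hu =>
    right
    rcases hI with h0 | ⟨act, xs, ys, zs, mid, f, us, P, H, fl, v0, t0, ps, hE, hG⟩
    · obtain ⟨-, -, h⟩ := sing h0; simp at h
    have hmem : Symbol.nonterminal (NT.ct q) ∈ (emb act xs ys zs mid f us : List (Symbol T (NT K Θ))) := by
      rw [← hE]; simp
    have hmid : mid = .ct q := by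
      cases mid <;> simp [emb, midL] at hmem
      rw [hmem]
    subst hmid
    obtain ⟨hsp, hli, hfz, hf, hh, hm, hok, hlen⟩ := hG
    obtain ⟨hI0, hR, rfl, rfl⟩ := hm
    have hf' : f = [] := by simpa using hf
    subst hf'
    obtain ⟨h1, -, h3⟩ := split_first (fun s => ∃ e : K, s = Symbol.nonterminal (NT.ct e))
      (l1 := act.toList.map (fun v => .nonterminal (.A v)) ++ (xs.map (fun v => .nonterminal (.I v))
        ++ (ys.map (fun v => .nonterminal (.M' v)) ++ zs.map (fun p => .nonterminal (.M p.1 p.2)))))
      (l2 := (inter (S.hash :: t0)).map (fun v => .nonterminal (.F v))) (a := .nonterminal (.ct q))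
      (u := u) (v := v) (b := .nonterminal (.ct q))
      (by
        have : u ++ Symbol.nonterminal (NT.ct q) :: v = u ++ [Symbol.nonterminal (NT.ct q)] ++ v := by simp
        rw [this, hE]; simp [emb, midL])
      (by
        intro s hs
        rintro ⟨e, rfl⟩
        simp at hs)
      (by rintro s hs ⟨e, rfl⟩; exact hu e hs) ⟨_, rfl⟩ ⟨_, rfl⟩
    subst h1 h3
    refine ⟨act, xs, ys, zs, .no, [], inter (S.hash :: t0),
      P, H, [], v0, t0, ps, ?_, ?_⟩
    · simp [emb, midL]
    · exact ⟨hsp, hli, by simp, by simp, hh, ⟨hI0, ⟨q, hR, hq⟩, by simp⟩, hok, hlen⟩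
  | speakI u v a hu =>
    right
    rcases hI with h0 | ⟨act, xs, ys, zs, mid, f, us, P, H, fl, v0, t0, ps, hE, hG⟩
    · obtain ⟨-, -, h⟩ := sing h0; simp at h
    rcases emb_first hE hu with ⟨c, -, h, -⟩ | ⟨rfl, x, xs', rfl, h, rfl, rfl⟩ |
      ⟨-, -, y, ys', -, h, -⟩ | ⟨_, _, h⟩ | ⟨_, h⟩ | ⟨_, h⟩ | ⟨_, h⟩ <;>
      simp only [reduceCtorEq, NT.I.injEq] at h
    subst h
    obtain ⟨hsp, hli, hfz, hf, hh, hm, hok, hlen⟩ := hG
    refine ⟨some a, xs', ys, zs, mid, f, us, P, H, fl, v0, t0, ps, ?_, ?_⟩
    · simp [emb]
    · refine ⟨by simpa using hsp, hli, hfz, hf, ?_, hm, hok, hlen⟩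
      rcases hh with hh | ⟨c, H0, hc, -⟩
      · left; exact hh
      · simp at hc
  | speakM u v a hu =>
    right
    rcases hI with h0 | ⟨act, xs, ys, zs, mid, f, us, P, H, fl, v0, t0, ps, hE, hG⟩
    · obtain ⟨-, -, h⟩ := sing h0; simp at h
    rcases emb_first hE hu with ⟨c, -, h, -⟩ | ⟨-, x, xs', -, h, -⟩ |
      ⟨rfl, rfl, y, ys', rfl, h, rfl, rfl⟩ | ⟨_, _, h⟩ | ⟨_, h⟩ | ⟨_, h⟩ | ⟨_, h⟩ <;>
      simp only [reduceCtorEq, NT.M'.injEq] at h
    subst h
    obtain ⟨hsp, hli, hfz, hf, hh, hm, hok, hlen⟩ := hG
    refine ⟨some a, [], ys', zs, mid, f, us, P, H, fl, v0, t0, ps, ?_, ?_⟩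
    · simp [emb]
    · refine ⟨by simpa using hsp, hli, hfz, hf, ?_, ?_, hok, hlen⟩
      · rcases hh with hh | ⟨c, H0, hc, -⟩
        · left; exact hh
        · simp at hc
      · cases mid with
        | sp b => obtain ⟨_, _, h, _⟩ := hm; simp at h
        | ct q => exact hm
        | no => exact hm
  | erase u v a hu =>
    right
    rcases hI with h0 | ⟨act, xs, ys, zs, mid, f, us, P, H, fl, v0, t0, ps, hE, hG⟩
    · obtain ⟨-, -, h⟩ := sing h0; simp at h
    rcases emb_first hE hu with ⟨c, rfl, h, rfl, rfl⟩ | ⟨-, x, xs', -, h, -⟩ |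
      ⟨-, -, y, ys', -, h, -⟩ | ⟨_, _, h⟩ | ⟨_, h⟩ | ⟨_, h⟩ | ⟨_, h⟩ <;>
      simp only [reduceCtorEq, NT.A.injEq] at h
    subst h
    obtain ⟨hsp, hli, hfz, hf, hh, hm, hok, hlen⟩ := hG
    refine ⟨none, xs, ys, zs, mid, f, us, P ++ [a], H, fl, v0, t0, ps, ?_, ?_⟩
    · simp [emb]
    · refine ⟨by simpa using hsp, hli, hfz, hf, ?_, hm, hok, hlen⟩
      left
      rcases hh with hh | ⟨c, H0, hc, rfl, hs⟩
      · exact hh.trans (List.sublist_append_left _ _)
      · simp only [Option.some.injEq] at hc
        subst hc
        exact List.Sublist.append hs (List.Sublist.refl _)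
  | listenM u v a b ha hu =>
    right
    rcases hI with h0 | ⟨act, xs, ys, zs, mid, f, us, P, H, fl, v0, t0, ps, hE, hG⟩
    · obtain ⟨-, -, h⟩ := sing h0; simp at h
    have hmem : Symbol.nonterminal (NT.M a b) ∈ (emb act xs ys zs mid f us : List (Symbol T (NT K Θ))) := by
      rw [← hE]; simp
    cases zs with
    | nil => cases mid <;> simp [emb, midL] at hmem
    | cons z zs =>
      obtain ⟨h1, h2, h3⟩ := split_first (fun s => ∃ c d, s = Symbol.nonterminal (NT.M c d))
        (l1 := act.toList.map (fun v => .nonterminal (.A v)) ++ (xs.map (fun v => .nonterminal (.I v))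
          ++ (ys.map (fun v => .nonterminal (.M' v)))))
        (l2 := zs.map (fun p => .nonterminal (.M p.1 p.2)) ++ (midL mid ++ (f.map .terminal ++
          us.map (fun v => .nonterminal (.F v))))) (a := .nonterminal (.M z.1 z.2))
        (u := u) (v := v) (b := .nonterminal (.M a b))
        (by
          have : u ++ Symbol.nonterminal (NT.M a b) :: v = u ++ [Symbol.nonterminal (NT.M a b)] ++ v := by simp
          rw [this, hE]; simp [emb])
        (by
          intro s hs
          rintro ⟨c, d, rfl⟩
          simp at hs)
        (by rintro s hs ⟨c, d, rfl⟩; exact hu c d hs) ⟨_, _, rfl⟩ ⟨_, _, rfl⟩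
      subst h1 h3
      obtain ⟨z1, z2⟩ := z
      simp only [Symbol.nonterminal.injEq, NT.M.injEq] at h2
      obtain ⟨rfl, rfl⟩ := h2
      have hact : act = some z1 := by
        simpa using ha
      subst hact
      obtain ⟨hsp, hli, hfz, hf, hh, hm, hok, hlen⟩ := hG
      have hfl : fl = [] := by
        by_contra hne
        exact absurd (hfz hne) (by simp)
      subst hfl
      have hf' : f = [] := by simpa using hf
      subst hf'
      refine ⟨some z1, xs, ys ++ [z2], zs, mid, [], us, P, H ++ [z1], [], v0, t0, ps, ?_, ?_⟩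
      · simp [emb]
      · refine ⟨by simpa using hsp, by simpa using hli, by simp, by simp, ?_, ?_, hok, hlen⟩
        · rcases hh with hh | ⟨c, H0, hc, rfl, hs⟩
          · right; exact ⟨z1, H, rfl, rfl, hh⟩
          · exfalso
            simp only [Option.some.injEq] at hc
            subst hc
            refine no_adj (ps.map Prod.fst) H0 (zs.map Prod.fst) z1 ?_
            rw [← List.append_nil (inter _), ← hli]; simp
        · cases mid with
          | sp b =>
            exfalso
            obtain ⟨_, rfl, _, _, _⟩ := hm
            simp [inter] at hli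
          | ct q => exact hm
          | no => exact hm
  | listenF u v a ha hu1 hu2 hu3 hu4 hu5 =>
    right
    rcases hI with h0 | ⟨act, xs, ys, zs, mid, f, us, P, H, fl, v0, t0, ps, hE, hG⟩
    · obtain ⟨-, -, h⟩ := sing h0; simp at h
    have hmem : Symbol.nonterminal (NT.F a) ∈ (emb act xs ys zs mid f us : List (Symbol T (NT K Θ))) := by
      rw [← hE]; simp
    have hcons : u ++ Symbol.nonterminal (NT.F a) :: v = emb act xs ys zs mid f us := by
      rw [← hE]; simp
    set p : Symbol T (NT K Θ) → Prop := fun s => (∃ c d, s = Symbol.nonterminal (NT.M c d)) ∨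
      (∃ c, s = Symbol.nonterminal (NT.F c)) ∨ (∃ c, s = Symbol.nonterminal (NT.sp c)) ∨
      (∃ c, s = Symbol.nonterminal (NT.ct c)) with hp
    have hu' : ∀ s ∈ u, ¬ p s := by
      rintro s hs (⟨c, d, rfl⟩ | ⟨c, rfl⟩ | ⟨c, rfl⟩ | ⟨c, rfl⟩)
      · exact hu1 c d hs
      · exact hu2 c hs
      · exact hu3 c hs
      · exact hu4 c hs
    have hpF : ∀ c, p (.nonterminal (.F c)) := fun c => Or.inr (Or.inl ⟨c, rfl⟩)
    cases zs with
    | cons z zs =>
      exfalso
      obtain ⟨h1, h2, h3⟩ := split_first p
        (l1 := act.toList.map (fun v => .nonterminal (.A v)) ++ (xs.map (fun v => .nonterminal (.I v))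
          ++ (ys.map (fun v => .nonterminal (.M' v)))))
        (l2 := zs.map (fun p => .nonterminal (.M p.1 p.2)) ++ (midL mid ++ (f.map .terminal ++
          us.map (fun v => .nonterminal (.F v))))) (a := .nonterminal (.M z.1 z.2))
        (u := u) (v := v) (b := .nonterminal (.F a))
        (by rw [hcons]; simp [emb])
        (by
          intro s hs
          rintro (⟨c, d, rfl⟩ | ⟨c, rfl⟩ | ⟨c, rfl⟩ | ⟨c, rfl⟩) <;> simp at hs)
        hu' (Or.inl ⟨_, _, rfl⟩) (hpF a)
      simp at h2
    | nil =>
      cases mid with
      | sp b =>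
        exfalso
        obtain ⟨h1, h2, h3⟩ := split_first p
          (l1 := act.toList.map (fun v => .nonterminal (.A v)) ++ (xs.map (fun v => .nonterminal (.I v))
            ++ (ys.map (fun v => .nonterminal (.M' v)))))
          (l2 := (f.map .terminal ++
            us.map (fun v => .nonterminal (.F v)))) (a := .nonterminal (.sp b))
          (u := u) (v := v) (b := .nonterminal (.F a))
          (by rw [hcons]; simp [emb, midL])
          (by
            intro s hs
            rintro (⟨c, d, rfl⟩ | ⟨c, rfl⟩ | ⟨c, rfl⟩ | ⟨c, rfl⟩) <;> simp at hs)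
          hu' (Or.inr (Or.inr (Or.inl ⟨_, rfl⟩))) (hpF a)
        simp at h2
      | ct q =>
        exfalso
        obtain ⟨h1, h2, h3⟩ := split_first p
          (l1 := act.toList.map (fun v => .nonterminal (.A v)) ++ (xs.map (fun v => .nonterminal (.I v))
            ++ (ys.map (fun v => .nonterminal (.M' v)))))
          (l2 := (f.map .terminal ++
            us.map (fun v => .nonterminal (.F v)))) (a := .nonterminal (.ct q))
          (u := u) (v := v) (b := .nonterminal (.F a))
          (by rw [hcons]; simp [emb, midL])
          (by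
            intro s hs
            rintro (⟨c, d, rfl⟩ | ⟨c, rfl⟩ | ⟨c, rfl⟩ | ⟨c, rfl⟩) <;> simp at hs)
          hu' (Or.inr (Or.inr (Or.inr ⟨_, rfl⟩))) (hpF a)
        simp at h2
      | no =>
        cases us with
        | nil => simp [emb, midL] at hmem
        | cons w us =>
          obtain ⟨h1, h2, h3⟩ := split_first p
            (l1 := act.toList.map (fun v => .nonterminal (.A v)) ++ (xs.map (fun v => .nonterminal (.I v))
              ++ (ys.map (fun v => .nonterminal (.M' v)) ++ f.map .terminal)))
            (l2 := us.map (fun v => .nonterminal (.F v))) (a := .nonterminal (.F w))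
            (u := u) (v := v) (b := .nonterminal (.F a))
            (by rw [hcons]; simp [emb, midL])
            (by
              intro s hs
              rintro (⟨c, d, rfl⟩ | ⟨c, rfl⟩ | ⟨c, rfl⟩ | ⟨c, rfl⟩) <;> simp at hs)
            hu' (hpF _) (hpF a)
          subst h1 h3
          simp only [Symbol.nonterminal.injEq, NT.F.injEq] at h2
          subst h2
          have hact : act = some w := by
            simpa using ha
          subst hact
          obtain ⟨hsp, hli, hfz, hf, hh, hm, hok, hlen⟩ := hG
          obtain ⟨hI0, hR, hfu⟩ := hm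
          refine ⟨some w, xs, ys, [], .no, f ++ (w.bind S.out).toList, us, P, H ++ [w], fl ++ [w],
            v0, t0, ps, ?_, ?_⟩
          · simp [emb, outL, midL]
          · refine ⟨hsp, ?_, by simp, ?_, ?_, ⟨hI0, hR, by simpa using hfu⟩, hok, hlen⟩
            · have : H = inter (ps.map Prod.fst) ++ fl := by simpa using hli
              rw [this]; simp
            · rw [hf, List.filterMap_append]
              congr 1
            · rcases hh with hh | ⟨c, H0, hc, rfl, hs⟩
              · right; exact ⟨w, H, rfl, rfl, hh⟩
              · exfalso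
                simp only [Option.some.injEq] at hc
                subst hc
                refine no_adj (ps.map Prod.fst ++ S.hash :: t0) H0 us w ?_
                rw [inter_append, ← hfu, ← List.append_assoc, ← hli]; simp

theorem inv_end (S : Sys T K Θ) (hout : S.out S.hash = none) (w : List T)
    (hI : Inv S (w.map Symbol.terminal)) : Spec S w := by
  rcases hI with h0 | ⟨act, xs, ys, zs, mid, f, us, P, H, fl, v0, t0, ps, hE, hG⟩
  · exfalso
    cases w with
    | nil => simp at h0
    | cons a w => simp at h0
  · have hno : ∀ B, Symbol.nonterminal B ∉ (emb act xs ys zs mid f us : List (Symbol T (NT K Θ))) := by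
      intro B; rw [← hE]; simp
    have h1 : act = none := by
      cases act with
      | none => rfl
      | some c => exact absurd (by simp [emb]) (hno (.A c))
    subst h1
    have h2 : xs = [] := by
      cases xs with
      | nil => rfl
      | cons c _ => exact absurd (by simp [emb]) (hno (.I c))
    subst h2
    have h3 : ys = [] := by
      cases ys with
      | nil => rfl
      | cons c _ => exact absurd (by simp [emb]) (hno (.M' c))
    subst h3
    have h4 : zs = [] := by
      cases zs with
      | nil => rfl
      | cons c _ => exact absurd (by simp [emb]) (hno (.M c.1 c.2))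
    subst h4
    have h5 : mid = .no := by
      cases mid with
      | no => rfl
      | sp b => exact absurd (by simp [emb, midL]) (hno (.sp b))
      | ct q => exact absurd (by simp [emb, midL]) (hno (.ct q))
    subst h5
    have h6 : us = [] := by
      cases us with
      | nil => rfl
      | cons c _ => exact absurd (by simp [emb]) (hno (.F c))
    subst h6
    obtain ⟨hsp, hli, hfz, hf, hh, hm, hok, hlen⟩ := hG
    obtain ⟨hI0, ⟨q, hR, hq⟩, hfu⟩ := hm
    have hwf : w = f := by
      have : w.map (Symbol.terminal (N := NT K Θ)) = f.map Symbol.terminal := by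
        rw [hE]; simp [emb, midL]
      exact List.map_injective_iff.2 (fun a b h => by simpa using h) this
    have hP : P = inter (S.hash :: v0 ++ ps.map Prod.snd) := by simpa using hsp
    have hfl : fl = inter (S.hash :: t0) := by simpa using hfu
    have hH : H = inter (ps.map Prod.fst ++ S.hash :: t0) := by
      rw [inter_append, ← hfl, ← hli]; simp
    have hs : H.Sublist P := by
      rcases hh with hh | ⟨c, H0, hc, -⟩
      · exact hh
      · simp at hc
    have heq : H = P := by
      apply hs.eq_of_length
      rw [hH, hP, inter_length, inter_length]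
      simp [hlen]
      ring
    refine ⟨v0, t0, ps, q, hI0, hR, hq, hok, hlen, ?_, ?_⟩
    · apply inter_inj
      rw [← hP, ← heq, hH]
    · rw [hwf, hf, hfl, inter_cons]
      have : ∀ l : List Θ, (inter l).filterMap (fun v => v.bind S.out) = l.filterMap S.out := by
        intro l
        induction l with
        | nil => rfl
        | cons a l ih =>
          rw [inter_cons, List.filterMap_cons, List.filterMap_cons, List.filterMap_cons, ih]
          simp
      simp [List.filterMap_cons, hout, this]

end T2

/-- T2 -/
theorem sound {T K Θ : Type} (S : Sys T K Θ) (hout : S.out S.hash = none) (w : List T)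
    (h : Relation.ReflTransGen (HStep S) [Symbol.nonterminal NT.st]
      (w.map Symbol.terminal)) : Spec S w := by
  apply T2.inv_end S hout w
  have : ∀ β, Relation.ReflTransGen (HStep S) [Symbol.nonterminal NT.st] β → T2.Inv S β := by
    intro β hβ
    induction hβ with
    | refl => left; rfl
    | tail _ hstep ih => exact T2.inv_step S ih hstep
  exact this _ h

end Pool.Agent.H522R4.RC
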