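import Pool.Agent.H522R4.RC.Defs

/-! T3: every queue run gives a derivation. -/

set_option autoImplicit false

namespace Pool.Agent.H522R4.RC

namespace T3

variable {T K Θ : Type}

/-- the symbols `M a b` -/
def mp (p : Option Θ × Option Θ) : Symbol T (NT K Θ) := .nonterminal (NT.M p.1 p.2)

/-- the symbols `I a` -/
def ip (a : Option Θ) : Symbol T (NT K Θ) := .nonterminal (NT.I a)

/-- the symbols `M' a` -/
def mq (a : Option Θ) : Symbol T (NT K Θ) := .nonterminal (NT.M' a)

/-- the symbols `F a` -/
def fp (a : Option Θ) : Symbol T (NT K Θ) := .nonterminal (NT.F a)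

theorem inter_append (l m : List Θ) : inter (l ++ m) = inter l ++ inter m := by
  simp [inter, List.flatMap_append]

theorem inter_cons (x : Θ) (l : List Θ) : inter (x :: l) = some x :: none :: inter l := by
  simp [inter]

/-- the pairs of tokens -/
def zz (ps : List (Θ × Θ)) : List (Option Θ × Option Θ) :=
  ps.flatMap (fun p => [(some p.1, some p.2), (none, none)])

theorem zz_cons (p : Θ × Θ) (l : List (Θ × Θ)) :
    zz (p :: l) = (some p.1, some p.2) :: (none, none) :: zz l := by
  simp [zz]

theorem zz_fst (ps : List (Θ × Θ)) : (zz ps).map Prod.fst = inter (ps.map Prod.fst) := by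
  induction ps with
  | nil => rfl
  | cons p l ih => rw [zz_cons, List.map_cons, List.map_cons, List.map_cons, inter_cons, ih]

theorem zz_snd (ps : List (Θ × Θ)) : (zz ps).map Prod.snd = inter (ps.map Prod.snd) := by
  induction ps with
  | nil => rfl
  | cons p l ih => rw [zz_cons, List.map_cons, List.map_cons, List.map_cons, inter_cons, ih]

theorem speak (S : Sys T K Θ) (c : Option Θ) (l xs ys : List (Option Θ))
    (h : xs ++ ys = c :: l) : ∃ xs' ys', xs' ++ ys' = l ∧
      ∀ R : List (Symbol T (NT K Θ)), HStep S (xs.map ip ++ ys.map mq ++ R)
        ([.nonterminal (NT.A c)] ++ (xs'.map ip ++ ys'.map mq ++ R)) := by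
  cases xs with
  | nil =>
    cases ys with
    | nil => simp at h
    | cons d ys' =>
      simp only [List.nil_append, List.cons.injEq] at h
      obtain ⟨rfl, rfl⟩ := h
      refine ⟨[], ys', rfl, fun R => ?_⟩
      exact HStep.speakM (S := S) [] (ys'.map mq ++ R) d (fun B => List.not_mem_nil)
  | cons d xs' =>
    simp only [List.cons_append, List.cons.injEq] at h
    obtain ⟨rfl, rfl⟩ := h
    refine ⟨xs', ys, rfl, fun R => ?_⟩
    have h1 := HStep.speakI (S := S) [] (xs'.map ip ++ ys.map mq ++ R) d
      (fun B => List.not_mem_nil)
    simpa [ip] using h1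

theorem step_del (S : Sys T K Θ) (c : Option Θ) (R : List (Symbol T (NT K Θ))) :
    HStep S ([.nonterminal (NT.A c)] ++ R) R := by
  have h1 := HStep.erase (S := S) [] R c (fun B => List.not_mem_nil)
  simpa using h1

theorem main (S : Sys T K Θ) (n : ℕ) : ∀ (xs ys : List (Option Θ))
    (zs : List (Option Θ × Option Θ)) (o : List (Symbol T (NT K Θ))) (us : List (Option Θ)),
    zs.length + us.length = n → xs ++ ys ++ zs.map Prod.snd = zs.map Prod.fst ++ us →
    (zs ≠ [] → us ≠ []) → (∀ B : NT K Θ, Symbol.nonterminal B ∉ o) →
    Relation.ReflTransGen (HStep S) (xs.map ip ++ ys.map mq ++ (zs.map mp ++ (o ++ us.map fp)))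
      (o ++ us.flatMap (outL S)) := by
  induction n with
  | zero =>
    intro xs ys zs o us hn hinv hne ho
    have hz : zs = [] := List.eq_nil_of_length_eq_zero (by omega)
    have hu : us = [] := List.eq_nil_of_length_eq_zero (by omega)
    subst hz; subst hu
    simp only [List.map_nil, List.append_nil, List.append_eq_nil_iff] at hinv
    obtain ⟨rfl, rfl⟩ := hinv
    simp only [List.map_nil, List.nil_append, List.append_nil, List.flatMap_nil]
    exact Relation.ReflTransGen.refl
  | succ n ih =>
    intro xs ys zs o us hn hinv hne ho
    have hlen : xs.length + ys.length = us.length := by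
      have := congrArg List.length hinv
      simp only [List.length_append, List.length_map] at this
      omega
    cases zs with
    | nil =>
      cases us with
      | nil => simp at hn
      | cons c us' =>
        simp only [List.map_nil, List.append_nil, List.nil_append] at hinv
        obtain ⟨xs', ys', h1, h2⟩ := speak S c us' xs ys hinv
        have s1 := h2 (([] : List (Option Θ × Option Θ)).map mp ++ (o ++ (c :: us').map fp))
        have s2 := HStep.listenF (S := S)
          ([.nonterminal (NT.A c)] ++ xs'.map ip ++ ys'.map mq ++ o) (us'.map fp) c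
          (by simp) (by
            intro a b
            simp [ip, mq, ho]) (by
            intro a
            simp [ip, mq, ho]) (by
            intro a
            simp [ip, mq, ho]) (by
            intro a
            simp [ip, mq, ho]) (by
            simp [ip, mq, ho])
        have s3 := step_del S c (xs'.map ip ++ ys'.map mq ++
          (([] : List (Option Θ × Option Θ)).map mp ++ ((o ++ outL S c) ++ us'.map fp)))
        have s4 := ih xs' ys' [] (o ++ outL S c) us' (by simpa using hn) (by simpa using h1)
          (by simp) (by
            intro B hB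
            rcases List.mem_append.1 hB with hB | hB
            · exact ho B hB
            · simp [outL] at hB)
        refine Relation.ReflTransGen.head s1 (Relation.ReflTransGen.head ?_
          (Relation.ReflTransGen.head s3 ?_))
        · simpa [fp] using s2
        · simpa using s4
    | cons p zs' =>
      obtain ⟨a, b⟩ := p
      have hus : us ≠ [] := hne (by simp)
      have hpos : 0 < us.length := List.length_pos_iff.2 hus
      obtain ⟨c, l, hl⟩ : ∃ c l, xs ++ ys = c :: l := by
        cases h : xs ++ ys with
        | nil =>
          have := congrArg List.length h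
          simp only [List.length_append, List.length_nil] at this
          omega
        | cons c l => exact ⟨c, l, rfl⟩
      rw [hl] at hinv
      simp only [List.map_cons, List.cons_append, List.cons.injEq] at hinv
      obtain ⟨rfl, hinv⟩ := hinv
      obtain ⟨xs', ys', h1, h2⟩ := speak S c l xs ys hl
      have s1 := h2 (((c, b) :: zs').map mp ++ (o ++ us.map fp))
      have s2 := HStep.listenM (S := S)
        ([.nonterminal (NT.A c)] ++ xs'.map ip ++ ys'.map mq)
        (zs'.map mp ++ (o ++ us.map fp)) c b (by simp) (by
          intro a b
          simp [ip, mq])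
      have s3 := step_del S c (xs'.map ip ++ (ys' ++ [b]).map mq ++
          (zs'.map mp ++ (o ++ us.map fp)))
      have s4 := ih xs' (ys' ++ [b]) zs' o us (by
          simp only [List.length_cons] at hn
          omega) (by
          rw [← List.append_assoc, h1, List.append_assoc]
          exact hinv) (fun _ => hus) ho
      refine Relation.ReflTransGen.head s1 (Relation.ReflTransGen.head ?_
          (Relation.ReflTransGen.head s3 s4))
      simpa [mp, mq] using s2

theorem spine (S : Sys T K Θ) (n : ℕ) : ∀ (vs ts : List Θ) (b : Bool), vs.length = n →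
    ts.length = n → Init S false vs b → (∀ t ∈ ts, S.okF t) →
    Relation.ReflTransGen (HStep S) [.nonterminal NT.st]
      ((inter (S.hash :: vs)).map ip ++ [.nonterminal (NT.sp b)] ++ (inter ts).map fp) := by
  induction n with
  | zero =>
    intro vs ts b hv ht hI _
    have hv' : vs = [] := List.eq_nil_of_length_eq_zero hv
    have ht' : ts = [] := List.eq_nil_of_length_eq_zero ht
    subst hv'; subst ht'
    have hb : false = b := hI
    subst hb
    have h1 := HStep.start (S := S) [] []
    exact Relation.ReflTransGen.single (by simpa [inter, ip] using h1)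
  | succ n ih =>
    intro vs ts b hv ht hI hok
    obtain ⟨vs', x, rfl⟩ : ∃ vs' x, vs = vs' ++ [x] := by
      rcases List.eq_nil_or_concat vs with h | ⟨l, x, h⟩
      · rw [h] at hv; simp at hv
      · exact ⟨l, x, by simpa using h⟩
    cases ts with
    | nil => simp at ht
    | cons t ts' =>
      rw [init_snoc] at hI
      obtain ⟨c, hc, hi⟩ := hI
      have h0 := ih vs' ts' c (by simpa using hv) (by simpa using ht) hc
        (fun s hs => hok s (List.mem_cons_of_mem _ hs))
      refine Relation.ReflTransGen.tail h0 ?_
      have h1 := HStep.spine (S := S) ((inter (S.hash :: vs')).map ip) ((inter ts').map fp) c x b t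
        hi (hok t (List.mem_cons_self ..)) (by
          intro e
          simp [ip])
      rw [inter_cons t ts', ← List.cons_append, inter_append]
      simpa [ip, fp, inter] using h1

theorem middle (S : Sys T K Θ) (r : K) (v : List (Symbol T (NT K Θ))) (ps : List (Θ × Θ)) :
    ∀ (q : K) (u : List (Symbol T (NT K Θ))), Run S q ps r →
    (∀ e : K, Symbol.nonterminal (NT.ct e) ∉ u) →
    Relation.ReflTransGen (HStep S) (u ++ [.nonterminal (NT.ct q)] ++ v)
      (u ++ (zz ps).map mp ++ [.nonterminal (NT.ct r)] ++ v) := by
  induction ps with
  | nil =>
    intro q u hr _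
    have h1 : q = r := hr
    subst h1
    simpa [zz] using Relation.ReflTransGen.refl
  | cons p l ih =>
    intro q u hr hu
    obtain ⟨s, hs, hr⟩ := hr
    have h1 := HStep.ctr (S := S) u v q p.1 p.2 s hs hu
    have h2 := ih s (u ++ [.nonterminal (NT.M (some p.1) (some p.2)),
      .nonterminal (NT.M none none)]) hr (by
        intro e
        simp [hu])
    refine Relation.ReflTransGen.head h1 ?_
    rw [zz_cons]
    simpa [mp] using h2

end T3

open T3 in
/-- T3 -/
theorem complete {T K Θ : Type} (S : Sys T K Θ) (hout : S.out S.hash = none) (w : List T)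
    (h : Spec S w) :
    Relation.ReflTransGen (HStep S) [Symbol.nonterminal NT.st] (w.map Symbol.terminal) := by
  obtain ⟨v0, t0, ps, q, hI, hR, hq, hok, hlen, heq, hw⟩ := h
  have p2 := spine S v0.length v0 t0 true rfl hlen.symm hI hok
  have p3 := HStep.spineEnd (S := S) ((inter (S.hash :: v0)).map ip) ((inter t0).map fp) (by
    intro e
    simp [ip])
  have p4 := middle S q ((inter (S.hash :: t0)).map fp) ps S.start
    ((inter (S.hash :: v0)).map ip) hR (by
      intro e
      simp [ip])
  have p5 := HStep.ctrEnd (S := S) ((inter (S.hash :: v0)).map ip ++ (zz ps).map mp)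
    ((inter (S.hash :: t0)).map fp) q hq (by
      intro e
      simp [ip, mp])
  have p6 := main S _ (inter (S.hash :: v0)) [] (zz ps) [] (inter (S.hash :: t0)) rfl (by
    rw [zz_fst, zz_snd, List.append_nil, ← inter_append, ← inter_append, heq]) (by
    intro _
    rw [inter_cons]
    simp) (by simp)
  have e1 : (inter (S.hash :: t0)).flatMap (outL S) = w.map Symbol.terminal := by
    rw [hw, inter_cons]
    have e2 : ∀ l : List Θ, (inter l).flatMap (outL S) =
        (l.filterMap S.out).map Symbol.terminal := by
      intro l
      induction l with
      | nil => rfl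
      | cons x l ih =>
        rw [inter_cons, List.flatMap_cons, List.flatMap_cons, ih]
        cases hx : S.out x with
        | none => simp [outL, hx]
        | some y => simp [outL, hx]
    rw [List.flatMap_cons, List.flatMap_cons, e2]
    simp [outL, hout]
  rw [← e1]
  refine p2.trans (Relation.ReflTransGen.head p3 ?_)
  have q4 : Relation.ReflTransGen (HStep S)
      ((inter (S.hash :: v0)).map ip ++ [.nonterminal (NT.ct S.start),
        .nonterminal (NT.F (some S.hash)), .nonterminal (NT.F none)] ++ (inter t0).map fp)
      ((inter (S.hash :: v0)).map ip ++ (zz ps).map mp ++ [.nonterminal (NT.ct q)] ++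
        (inter (S.hash :: t0)).map fp) := by
    rw [inter_cons S.hash t0] at p4 ⊢
    simpa [fp] using p4
  refine q4.trans (Relation.ReflTransGen.head p5 ?_)
  simpa using p6

end Pool.Agent.H522R4.RC
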