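import Pool.Agent.H522R4.RC.Defs

/-! Task T4 (helper666): a row run is one grammar step. -/

set_option autoImplicit false

namespace Pool.Agent.H522R4.RC

namespace T4aux

theorem wr_run {T N : Type} (L : ℕ) (S0 : N) (PL PR : Finset (RCRule T N))
    (rp : List (Option (Symbol T N) × Option (Symbol T N))) :
    ∀ (x : {l : List (Symbol T N) // l.length ≤ L}) (U W Q : Set N) (q : Kst T N L),
      Run (GSys L S0 PL PR) (Kst.wr x U W Q) (emb2 rp) q → Acc q →
      (rp.map Prod.snd).reduceOption = x.1 ++ (rp.map Prod.fst).reduceOption ∧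
      (∀ B ∈ U, B ∈ Q ∨ Symbol.nonterminal B ∈ (rp.map Prod.fst).reduceOption) ∧
      (∀ B ∈ W, B ∉ Q ∧ Symbol.nonterminal B ∉ (rp.map Prod.fst).reduceOption) := by
  induction rp with
  | nil =>
    intro x U W Q q h hq
    obtain rfl : Kst.wr x U W Q = q := h
    obtain ⟨h1, h2, h3⟩ := hq
    refine ⟨?_, fun B hB => Or.inl (h2 hB), fun B hB => ⟨h3 B hB, ?_⟩⟩
    · rw [h1]; rfl
    · simp [List.reduceOption_nil]
  | cons p l ih =>
    intro x U W Q q h hq
    obtain ⟨a, b⟩ := p
    obtain ⟨s, hs, hr⟩ := h
    change Dl PL PR _ (some a) (some b) _ at hs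
    cases hs with
    | skip =>
      obtain ⟨h1, h2, h3⟩ := ih x U W Q q hr hq
      simp only [List.map_cons, List.reduceOption_cons_of_none]
      exact ⟨h1, h2, h3⟩
    | write y _ x' _ _ _ hx =>
      obtain ⟨h1, h2, h3⟩ := ih x' U W Q q hr hq
      simp only [List.map_cons, List.reduceOption_cons_of_none, List.reduceOption_cons_of_some]
      refine ⟨?_, h2, h3⟩
      rw [h1, hx]; rfl
    | copy2 _ _ _ _ _ hx =>
      obtain ⟨h1, h2, h3⟩ := ih x U W _ q hr hq
      rw [hx, List.nil_append] at h1 ⊢
      cases a with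
      | none =>
        simp only [List.map_cons, List.reduceOption_cons_of_none]
        refine ⟨h1, fun B hB => ?_, fun B hB => ?_⟩
        · rcases h2 B hB with (h4 | h4) | h4
          · exact Or.inl h4
          · exact absurd h4 (by simp [nts])
          · exact Or.inr h4
        · exact ⟨fun h4 => (h3 B hB).1 (Or.inl h4), (h3 B hB).2⟩
      | some c =>
        simp only [List.map_cons, List.reduceOption_cons_of_some]
        refine ⟨by rw [h1], fun B hB => ?_, fun B hB => ?_⟩
        · rcases h2 B hB with (h4 | h4) | h4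
          · exact Or.inl h4
          · right
            have h5 : c = Symbol.nonterminal B := by
              have : some c = some (Symbol.nonterminal B) := h4
              exact Option.some.inj this
            rw [h5]
            exact List.mem_cons_self
          · exact Or.inr (List.mem_cons_of_mem _ h4)
        · refine ⟨fun h4 => (h3 B hB).1 (Or.inl h4), fun h4 => ?_⟩
          rcases List.mem_cons.1 h4 with h5 | h5
          · exact (h3 B hB).1 (Or.inr (by rw [← h5]; rfl))
          · exact (h3 B hB).2 h5

theorem pre_run {T N : Type} (L : ℕ) (S0 : N) (PL PR : Finset (RCRule T N))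
    (rp : List (Option (Symbol T N) × Option (Symbol T N))) :
    ∀ (P : Set N) (q : Kst T N L),
      Run (GSys L S0 PL PR) (Kst.pre P) (emb2 rp) q → Acc q →
      ∃ (u v : List (Symbol T N)) (A : N) (x : List (Symbol T N)) (U W : Finset N),
        (rp.map Prod.fst).reduceOption = u ++ [Symbol.nonterminal A] ++ v ∧
        (rp.map Prod.snd).reduceOption = u ++ x ++ v ∧
        (((A, x, U, W) ∈ PL ∧ (∀ B ∈ U, B ∈ P ∨ Symbol.nonterminal B ∈ u) ∧
            (∀ B ∈ W, B ∉ P ∧ Symbol.nonterminal B ∉ u)) ∨
         ((A, x, U, W) ∈ PR ∧ (∀ B ∈ U, Symbol.nonterminal B ∈ v) ∧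
            (∀ B ∈ W, Symbol.nonterminal B ∉ v))) := by
  induction rp with
  | nil =>
    intro P q h hq
    obtain rfl : Kst.pre P = q := h
    exact hq.elim
  | cons p l ih =>
    intro P q h hq
    obtain ⟨a, b⟩ := p
    obtain ⟨s, hs, hr⟩ := h
    change Dl PL PR _ (some a) (some b) _ at hs
    cases hs with
    | copy =>
      obtain ⟨u, v, A, x, U, W, h1, h2, h3⟩ := ih _ q hr hq
      cases a with
      | none =>
        simp only [List.map_cons, List.reduceOption_cons_of_none]
        refine ⟨u, v, A, x, U, W, h1, h2, ?_⟩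
        rcases h3 with ⟨h3, h4, h5⟩ | h3
        · left
          refine ⟨h3, fun B hB => ?_, fun B hB => ?_⟩
          · rcases h4 B hB with (h6 | h6) | h6
            · exact Or.inl h6
            · exact absurd h6 (by simp [nts])
            · exact Or.inr h6
          · exact ⟨fun h6 => (h5 B hB).1 (Or.inl h6), (h5 B hB).2⟩
        · exact Or.inr h3
      | some c =>
        simp only [List.map_cons, List.reduceOption_cons_of_some]
        refine ⟨c :: u, v, A, x, U, W, by rw [h1]; rfl, by rw [h2]; rfl, ?_⟩
        rcases h3 with ⟨h3, h4, h5⟩ | h3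
        · left
          refine ⟨h3, fun B hB => ?_, fun B hB => ?_⟩
          · rcases h4 B hB with (h6 | h6) | h6
            · exact Or.inl h6
            · right
              have h7 : c = Symbol.nonterminal B := by
                have : some c = some (Symbol.nonterminal B) := h6
                exact Option.some.inj this
              rw [h7]
              exact List.mem_cons_self
            · exact Or.inr (List.mem_cons_of_mem _ h6)
          · refine ⟨fun h6 => (h5 B hB).1 (Or.inl h6), fun h6 => ?_⟩
            rcases List.mem_cons.1 h6 with h7 | h7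
            · exact (h5 B hB).1 (Or.inr (by rw [← h7]; rfl))
            · exact (h5 B hB).2 h7
        · exact Or.inr h3
    | ruleL _ A x U W hm hU hW =>
      obtain ⟨h1, h2, h3⟩ := wr_run L S0 PL PR l x ∅ ∅ ∅ q hr hq
      simp only [List.map_cons, List.reduceOption_cons_of_none, List.reduceOption_cons_of_some]
      refine ⟨[], (l.map Prod.fst).reduceOption, A, x.1, U, W, rfl, by rw [h1]; rfl, Or.inl
        ⟨hm, fun B hB => Or.inl (hU B hB), fun B hB => ⟨hW B hB, by simp⟩⟩⟩
    | ruleR _ A x U W hm =>
      obtain ⟨h1, h2, h3⟩ := wr_run L S0 PL PR l x (↑U) (↑W) ∅ q hr hq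
      simp only [List.map_cons, List.reduceOption_cons_of_none, List.reduceOption_cons_of_some]
      refine ⟨[], (l.map Prod.fst).reduceOption, A, x.1, U, W, rfl, by rw [h1]; rfl, Or.inr
        ⟨hm, fun B hB => (h2 B hB).resolve_left (fun h => h), fun B hB => (h3 B hB).2⟩⟩

end T4aux

/-- T4 -/
theorem row_sound {T N : Type} (L : ℕ) (S0 : N) (PL PR : Finset (RCRule T N))
    (r r' : List (Option (Symbol T N))) (h : RowRel L S0 PL PR r r') :
    GStep PL PR r.reduceOption r'.reduceOption := by
  obtain ⟨rp, rfl, rfl, q, hr, hq⟩ := h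
  obtain ⟨u, v, A, x, U, W, h1, h2, h3⟩ := T4aux.pre_run L S0 PL PR rp ∅ q hr hq
  refine ⟨u, v, A, x, U, W, h1, h2, ?_⟩
  rcases h3 with ⟨h3, h4, h5⟩ | h3
  · exact Or.inl ⟨h3, fun B hB => (h4 B hB).resolve_left (fun h => h), fun B hB => (h5 B hB).2⟩
  · exact Or.inr h3

end Pool.Agent.H522R4.RC
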