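import Pool.Agent.H522R4.RC.Defs

/-! T5: a grammar step gives a row run. -/

set_option autoImplicit false

namespace Pool.Agent.H522R4.RC

namespace T5aux

variable {T N : Type}

/-- the nonterminals of a row -/
def NN (l : List (Option (Symbol T N))) : Set N := {B | some (Symbol.nonterminal B) ∈ l}

theorem NN_nil : NN ([] : List (Option (Symbol T N))) = ∅ := by
  ext B; simp [NN]

theorem NN_cons (c : Option (Symbol T N)) (l : List (Option (Symbol T N))) :
    NN (c :: l) = nts c ∪ NN l := by
  ext B
  simp only [NN, nts, List.mem_cons, Set.mem_setOf_eq, Set.mem_union]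
  constructor
  · rintro (h | h)
    · exact Or.inl h.symm
    · exact Or.inr h
  · rintro (h | h)
    · exact Or.inl h.symm
    · exact Or.inr h

theorem mem_NN (B : N) (l : List (Option (Symbol T N))) :
    B ∈ NN l ↔ Symbol.nonterminal B ∈ l.reduceOption := by
  rw [List.reduceOption_mem_iff]
  rfl

theorem split (l : List (Option (Symbol T N))) (a b : List (Symbol T N))
    (h : l.reduceOption = a ++ b) :
    ∃ l1 l2, l = l1 ++ l2 ∧ l1.reduceOption = a ∧ l2.reduceOption = b := by
  induction l generalizing a with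
  | nil =>
    have h' : a = [] ∧ b = [] := by simpa using h.symm
    exact ⟨[], [], rfl, by simp [h'.1], by simp [h'.2]⟩
  | cons c l ih =>
    cases c with
    | none =>
      rw [List.reduceOption_cons_of_none] at h
      obtain ⟨l1, l2, h1, h2, h3⟩ := ih a h
      exact ⟨none :: l1, l2, by rw [h1]; rfl, by rw [List.reduceOption_cons_of_none, h2], h3⟩
    | some y =>
      rw [List.reduceOption_cons_of_some] at h
      cases a with
      | nil =>
        exact ⟨[], some y :: l, rfl, rfl, by rw [List.reduceOption_cons_of_some, h]; rfl⟩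
      | cons z a =>
        rw [List.cons_append, List.cons.injEq] at h
        obtain ⟨l1, l2, h1, h2, h3⟩ := ih a h.2
        exact ⟨some y :: l1, l2, by rw [h1]; rfl,
          by rw [List.reduceOption_cons_of_some, h2, h.1], h3⟩

theorem run_copy (L : ℕ) (S0 : N) (PL PR : Finset (RCRule T N)) (l : List (Option (Symbol T N)))
    (P : Set N) : Run (GSys L S0 PL PR) (Kst.pre P) (emb2 (l.map fun c => (c, c)))
      (Kst.pre (P ∪ NN l)) := by
  induction l generalizing P with
  | nil => simp [emb2, Run, NN_nil]
  | cons c l ih =>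
    refine ⟨Kst.pre (P ∪ nts c), Dl.copy P c, ?_⟩
    have h := ih (P ∪ nts c)
    rw [Set.union_assoc, ← NN_cons] at h
    exact h

theorem run_copy2 (L : ℕ) (S0 : N) (PL PR : Finset (RCRule T N))
    (x : {l : List (Symbol T N) // l.length ≤ L}) (hx : x.1 = []) (U W : Set N)
    (l : List (Option (Symbol T N))) (Q : Set N) :
    Run (GSys L S0 PL PR) (Kst.wr x U W Q) (emb2 (l.map fun c => (c, c)))
      (Kst.wr x U W (Q ∪ NN l)) := by
  induction l generalizing Q with
  | nil => simp [emb2, Run, NN_nil]
  | cons c l ih =>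
    refine ⟨Kst.wr x U W (Q ∪ nts c), Dl.copy2 x U W Q c hx, ?_⟩
    have h := ih (Q ∪ nts c)
    rw [Set.union_assoc, ← NN_cons] at h
    exact h

theorem run_write (L : ℕ) (S0 : N) (PL PR : Finset (RCRule T N)) (U W Q : Set N)
    (l : List (Option (Symbol T N))) (x : {l : List (Symbol T N) // l.length ≤ L})
    (hx : x.1 = l.reduceOption) :
    Run (GSys L S0 PL PR) (Kst.wr x U W Q) (emb2 (l.map fun c => (none, c)))
      (Kst.wr ⟨[], Nat.zero_le _⟩ U W Q) := by
  induction l generalizing x with
  | nil =>
    have : x = ⟨[], Nat.zero_le _⟩ := Subtype.ext hx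
    rw [this]
    rfl
  | cons c l ih =>
    cases c with
    | none =>
      rw [List.reduceOption_cons_of_none] at hx
      exact ⟨Kst.wr x U W Q, Dl.skip x U W Q, ih x hx⟩
    | some y =>
      rw [List.reduceOption_cons_of_some] at hx
      have hlen : l.reduceOption.length ≤ L := by
        have := x.2
        rw [hx, List.length_cons] at this
        omega
      exact ⟨Kst.wr ⟨l.reduceOption, hlen⟩ U W Q,
        Dl.write y x ⟨l.reduceOption, hlen⟩ U W Q hx, ih ⟨l.reduceOption, hlen⟩ rfl⟩

end T5aux

open T5aux in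
/-- T5 -/
theorem row_complete {T N : Type} (L : ℕ) (S0 : N) (PL PR : Finset (RCRule T N))
    (hL : ∀ R ∈ PL, R.2.1.length ≤ L) (hR : ∀ R ∈ PR, R.2.1.length ≤ L)
    (α : List (Symbol T N)) (r' : List (Option (Symbol T N)))
    (h : GStep PL PR α r'.reduceOption) :
    ∃ r r1 r2 : List (Option (Symbol T N)), r' = r1 ++ r2 ∧ r.reduceOption = α ∧
      RowRel L S0 PL PR r (r1 ++ none :: r2) := by
  obtain ⟨u, v, A, x, U, W, hα, hβ, hrule⟩ := h
  obtain ⟨rux, rv, e1, hux, hv⟩ := split r' (u ++ x) v hβ
  obtain ⟨ru, rx, e2, hu, hx⟩ := split rux u x hux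
  subst e1 e2
  have hlen : x.length ≤ L := by
    rcases hrule with h | h
    · exact hL _ h.1
    · exact hR _ h.1
  -- the row before the step
  refine ⟨ru ++ some (Symbol.nonterminal A) :: (rx.map (fun _ => none) ++ rv), ru, rx ++ rv,
    by rw [List.append_assoc], ?_, ?_⟩
  · have h1 : (rx.map (fun _ => (none : Option (Symbol T N)))).reduceOption = [] := by
      induction rx with
      | nil => rfl
      | cons c l ih => simp [List.reduceOption_cons_of_none]
    rw [List.reduceOption_append, List.reduceOption_cons_of_some, List.reduceOption_append, h1, hu,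
      hv, hα]
    simp
  · -- the run
    refine ⟨ru.map (fun c => (c, c)) ++ (some (Symbol.nonterminal A), none) ::
      (rx.map (fun c => (none, c)) ++ rv.map (fun c => (c, c))), ?_, ?_, ?_⟩
    · simp [Function.comp_def]
    · simp [Function.comp_def]
    · have hsplit : emb2 (ru.map (fun c => (c, c)) ++ (some (Symbol.nonterminal A), none) ::
          (rx.map (fun c => (none, c)) ++ rv.map (fun c => (c, c)))) =
          emb2 (ru.map (fun c => (c, c))) ++ ((some (some (Symbol.nonterminal A)), some none) ::
            (emb2 (rx.map (fun c => (none, c))) ++ emb2 (rv.map (fun c => (c, c))))) := by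
        simp [emb2]
      rw [hsplit]
      have h1 := run_copy L S0 PL PR ru ∅
      have key : ∀ U' W' : Set N,
          Dl PL PR (Kst.pre (∅ ∪ NN ru)) (some (some (Symbol.nonterminal A))) (some none)
            (Kst.wr (⟨x, hlen⟩ : {l : List (Symbol T N) // l.length ≤ L}) U' W' ∅) →
          (U' ⊆ NN rv ∧ ∀ B ∈ W', B ∉ NN rv) →
          ∃ q : Kst T N L, Run (GSys L S0 PL PR) (Kst.pre ∅)
            (emb2 (ru.map (fun c => (c, c))) ++ ((some (some (Symbol.nonterminal A)), some none) ::
            (emb2 (rx.map (fun c => (none, c))) ++ emb2 (rv.map (fun c => (c, c)))))) q ∧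
            Acc q := by
        intro U' W' hd hacc
        refine ⟨Kst.wr ⟨[], Nat.zero_le _⟩ U' W' (∅ ∪ NN rv), ?_, ?_⟩
        · rw [run_append]
          refine ⟨_, h1, _, hd, ?_⟩
          rw [run_append]
          exact ⟨_, run_write L S0 PL PR U' W' ∅ rx ⟨x, hlen⟩ hx.symm,
            run_copy2 L S0 PL PR ⟨[], Nat.zero_le _⟩ rfl U' W' rv ∅⟩
        · refine ⟨rfl, ?_, ?_⟩
          · rw [Set.empty_union]; exact hacc.1
          · rw [Set.empty_union]; exact hacc.2
      rcases hrule with ⟨hm, hU, hW⟩ | ⟨hm, hU, hW⟩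
      · refine key ∅ ∅ ?_ ⟨Set.empty_subset _, fun B hB => absurd hB (Set.notMem_empty B)⟩
        apply Dl.ruleL (∅ ∪ NN ru) A ⟨x, hlen⟩ U W hm
        · intro B hB
          rw [Set.empty_union, mem_NN, hu]
          exact hU B hB
        · intro B hB
          rw [Set.empty_union, mem_NN, hu]
          exact hW B hB
      · refine key (↑U) (↑W) (Dl.ruleR (∅ ∪ NN ru) A ⟨x, hlen⟩ U W hm) ⟨?_, ?_⟩
        · intro B hB
          rw [mem_NN, hv]
          exact hU B hB
        · intro B hB
          rw [mem_NN, hv]
          exact hW B hB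

end Pool.Agent.H522R4.RC
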