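import Pool.Agent.H522R4.RC.Defs

set_option autoImplicit false

namespace Pool.Agent.H522R4.RC

theorem T6_ne_start {T N : Type} {L : ℕ} {PL PR : Finset (RCRule T N)} {q s : Kst T N L}
    {a b : Option (Option (Symbol T N))} (h : Dl PL PR q a b s) : s ≠ Kst.start := by
  cases h <;> exact fun h => by cases h

theorem T6_run_ne {T N : Type} {L : ℕ} {S0 : N} {PL PR : Finset (RCRule T N)} :
    ∀ (l : List (Option (Option (Symbol T N)) × Option (Option (Symbol T N))))
      (q s : Kst T N L), q ≠ Kst.start → Run (GSys L S0 PL PR) q l s → s ≠ Kst.start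
  | [], q, s, hq, h => by
    have : q = s := h
    rwa [← this]
  | p :: l, q, s, _, h => by
    obtain ⟨t, ht, h2⟩ := h
    exact T6_run_ne l t s (T6_ne_start (show Dl PL PR q p.1 p.2 t from ht)) h2

theorem T6_loop {T N : Type} {L : ℕ} {PL PR : Finset (RCRule T N)} :
    ∀ (q : Kst T N L), q ≠ Kst.start → Dl PL PR q (some none) (some none) q
  | Kst.start, h => absurd rfl h
  | Kst.pre P, _ => by
    have h1 := Dl.copy (PL := PL) (PR := PR) (L := L) P (none : Option (Symbol T N))
    have e : P ∪ nts (none : Option (Symbol T N)) = P := by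
      ext B
      simp [nts]
    rwa [e] at h1
  | Kst.wr x U W Q, _ => Dl.skip x U W Q

/-- T6 -/
theorem row_insert {T N : Type} (L : ℕ) (S0 : N) (PL PR : Finset (RCRule T N))
    (r1 r2 r' : List (Option (Symbol T N))) (h : RowRel L S0 PL PR (r1 ++ r2) r') :
    ∃ r1' r2' : List (Option (Symbol T N)), r' = r1' ++ r2' ∧
      RowRel L S0 PL PR (r1 ++ none :: r2) (r1' ++ none :: r2') := by
  obtain ⟨rp, h1, h2, q, h3, h4⟩ := h
  obtain ⟨p1, p2, rfl, e1, e2⟩ := List.map_eq_append_iff.1 h1
  refine ⟨p1.map Prod.snd, p2.map Prod.snd, ?_, p1 ++ (none, none) :: p2, ?_, ?_, q, ?_, h4⟩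
  · rw [← h2, List.map_append]
  · rw [List.map_append, List.map_cons, e1, e2]
  · rw [List.map_append, List.map_cons]
  · have e3 : emb2 (p1 ++ p2) = emb2 p1 ++ emb2 p2 := List.map_append
    have e4 : emb2 (p1 ++ (none, none) :: p2) = emb2 p1 ++ (some none, some none) :: emb2 p2 := by
      unfold emb2
      rw [List.map_append, List.map_cons]
    rw [e3, run_append] at h3
    obtain ⟨s, hs1, hs2⟩ := h3
    rw [e4, run_append]
    have hs : s ≠ Kst.start := T6_run_ne _ _ _ (fun h => by cases h) hs1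
    exact ⟨s, hs1, s, T6_loop s hs, hs2⟩

end Pool.Agent.H522R4.RC
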