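import Pool.Agent.H522R4.RC.Defs

/-! T7: a derivation gives a chain of rows. -/

set_option autoImplicit false

namespace Pool.Agent.H522R4.RC

theorem t7_lift {T N : Type} (L : ℕ) (S0 : N) (PL PR : Finset (RCRule T N))
    (h6 : ∀ (r1 r2 r' : List (Option (Symbol T N))), RowRel L S0 PL PR (r1 ++ r2) r' →
      ∃ r1' r2' : List (Option (Symbol T N)), r' = r1' ++ r2' ∧
        RowRel L S0 PL PR (r1 ++ none :: r2) (r1' ++ none :: r2'))
    (r1 r2 t : List (Option (Symbol T N)))
    (h : Relation.ReflTransGen (RowRel L S0 PL PR) (r1 ++ r2) t) :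
    ∃ t1 t2 : List (Option (Symbol T N)), t = t1 ++ t2 ∧
      Relation.ReflTransGen (RowRel L S0 PL PR) (r1 ++ none :: r2) (t1 ++ none :: t2) := by
  induction h with
  | refl => exact ⟨r1, r2, rfl, Relation.ReflTransGen.refl⟩
  | tail _ hstep ih =>
    obtain ⟨t1, t2, rfl, h1⟩ := ih
    obtain ⟨t1', t2', rfl, h2⟩ := h6 _ _ _ hstep
    exact ⟨t1', t2', rfl, h1.tail h2⟩

/-- T7 -/
theorem deriv_rows {T N : Type} (L : ℕ) (S0 : N) (PL PR : Finset (RCRule T N))
    (hL : ∀ R ∈ PL, R.2.1.length ≤ L) (hR : ∀ R ∈ PR, R.2.1.length ≤ L)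
    (h5 : ∀ (α : List (Symbol T N)) (r' : List (Option (Symbol T N))),
      GStep PL PR α r'.reduceOption →
      ∃ r r1 r2 : List (Option (Symbol T N)), r' = r1 ++ r2 ∧ r.reduceOption = α ∧
        RowRel L S0 PL PR r (r1 ++ none :: r2))
    (h6 : ∀ (r1 r2 r' : List (Option (Symbol T N))), RowRel L S0 PL PR (r1 ++ r2) r' →
      ∃ r1' r2' : List (Option (Symbol T N)), r' = r1' ++ r2' ∧
        RowRel L S0 PL PR (r1 ++ none :: r2) (r1' ++ none :: r2'))
    (α β : List (Symbol T N)) (h : Relation.ReflTransGen (GStep PL PR) α β) :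
    ∃ r t : List (Option (Symbol T N)), r.reduceOption = α ∧ t.reduceOption = β ∧
      Relation.ReflTransGen (RowRel L S0 PL PR) r t := by
  induction h using Relation.ReflTransGen.head_induction_on with
  | refl =>
    have e : (β.map some).reduceOption = β := by
      simp [List.reduceOption]
    exact ⟨β.map some, β.map some, e, e, Relation.ReflTransGen.refl⟩
  | head hstep _ ih =>
    obtain ⟨r, t, hr, ht, hc⟩ := ih
    rw [← hr] at hstep
    obtain ⟨r0, r1, r2, rfl, h1, h2⟩ := h5 _ _ hstep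
    obtain ⟨t1, t2, rfl, h3⟩ := t7_lift L S0 PL PR h6 r1 r2 t hc
    refine ⟨r0, t1 ++ none :: t2, h1, ?_, Relation.ReflTransGen.head h2 h3⟩
    rw [← ht]
    simp [List.reduceOption]

end Pool.Agent.H522R4.RC
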