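import Pool.Agent.H522R4.RC.Defs

set_option autoImplicit false

namespace Pool.Agent.H522R4.RC

theorem t8_chain {T N : Type} (L : ℕ) (S0 : N) (PL PR : Finset (RCRule T N))
    (r t : List (Option (Symbol T N)))
    (h : Relation.ReflTransGen (RowRel L S0 PL PR) r t) :
    r.length = t.length ∧ ∀ q0 : Kst T N L, Acc q0 → ∃ ps q, Run (GSys L S0 PL PR) q0 ps q ∧ Acc q ∧
      none :: (r.map some ++ ps.map Prod.snd) = ps.map Prod.fst ++ none :: t.map some := by
  induction h using Relation.ReflTransGen.head_induction_on with
  | refl =>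
    refine ⟨rfl, fun q0 hq0 => ⟨[], q0, rfl, hq0, ?_⟩⟩
    simp
  | @head r r1 h1 h1r ih =>

    obtain ⟨rp, e1, e2, q1, hrun, hacc⟩ := h1
    obtain ⟨hlen, ih⟩ := ih
    refine ⟨?_, fun q0 hq0 => ?_⟩
    · rw [← hlen, ← e1, ← e2]; simp
    · obtain ⟨ps, q, h1, h2, h3⟩ := ih q1 hacc
      refine ⟨(none, none) :: (emb2 rp ++ ps), q, ?_, h2, ?_⟩
      · refine ⟨Kst.pre ∅, Dl.hash q0 hq0, ?_⟩
        rw [run_append]
        exact ⟨q1, hrun, h1⟩
      · have a1 : (emb2 rp).map Prod.fst = r.map some := by
          rw [← e1]; simp [emb2, Function.comp_def]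
        have a2 : (emb2 rp).map Prod.snd = r1.map some := by
          rw [← e2]; simp [emb2, Function.comp_def]
        simp only [List.map_cons, List.map_append, a1, a2, List.cons_append, List.append_assoc]
        rw [← h3]

theorem t8_init1 {T N : Type} (L : ℕ) (S0 : N) (PL PR : Finset (RCRule T N))
    (r : List (Option (Symbol T N))) (hr : r.reduceOption = []) :
    Init (GSys L S0 PL PR) true (r.map some) true := by
  induction r with
  | nil => rfl
  | cons c r ih =>
    cases c with
    | none =>
      rw [List.reduceOption_cons_of_none] at hr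
      exact ⟨true, Or.inl ⟨rfl, rfl⟩, ih hr⟩
    | some x =>
      rw [List.reduceOption_cons_of_some] at hr
      exact absurd hr (List.cons_ne_nil _ _)

theorem t8_init {T N : Type} (L : ℕ) (S0 : N) (PL PR : Finset (RCRule T N))
    (r : List (Option (Symbol T N))) (hr : r.reduceOption = [Symbol.nonterminal S0]) :
    Init (GSys L S0 PL PR) false (r.map some) true := by
  induction r with
  | nil => exact absurd hr.symm (List.cons_ne_nil _ _)
  | cons c r ih =>
    cases c with
    | none =>
      rw [List.reduceOption_cons_of_none] at hr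
      exact ⟨false, Or.inl ⟨rfl, rfl⟩, ih hr⟩
    | some x =>
      rw [List.reduceOption_cons_of_some] at hr
      obtain ⟨hx, hr'⟩ := List.cons_eq_cons.1 hr
      subst hx
      exact ⟨true, Or.inr ⟨rfl, rfl, rfl⟩, t8_init1 L S0 PL PR r hr'⟩

theorem t8_out {T N : Type} (t : List (Option (Symbol T N))) (w : List T)
    (ht : t.reduceOption = w.map Symbol.terminal) :
    (∀ c ∈ t.map some, OkF c) ∧ w = (t.map some).filterMap Out := by
  induction t generalizing w with
  | nil =>
    have : w.map (Symbol.terminal (N := N)) = [] := ht.symm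
    rw [List.map_eq_nil_iff] at this
    subst this
    simp
  | cons c t ih =>
    cases c with
    | none =>
      rw [List.reduceOption_cons_of_none] at ht
      obtain ⟨h1, h2⟩ := ih w ht
      refine ⟨?_, ?_⟩
      · intro c hc
        rw [List.map_cons, List.mem_cons] at hc
        rcases hc with rfl | hc
        · exact Or.inl rfl
        · exact h1 c hc
      · rw [List.map_cons, List.filterMap_cons_none (by rfl)]
        exact h2
    | some x =>
      rw [List.reduceOption_cons_of_some] at ht
      cases w with
      | nil => exact absurd ht (List.cons_ne_nil _ _)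
      | cons a w =>
        rw [List.map_cons] at ht
        obtain ⟨hx, ht'⟩ := List.cons_eq_cons.1 ht
        subst hx
        obtain ⟨h1, h2⟩ := ih w ht'
        refine ⟨?_, ?_⟩
        · intro c hc
          rw [List.map_cons, List.mem_cons] at hc
          rcases hc with rfl | hc
          · exact Or.inr ⟨a, rfl⟩
          · exact h1 c hc
        · rw [List.map_cons, List.filterMap_cons_some (b := a) (by rfl)]
          rw [← h2]

/-- T8 -/
theorem rows_spec {T N : Type} (L : ℕ) (S0 : N) (PL PR : Finset (RCRule T N)) (w : List T)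
    (r t : List (Option (Symbol T N))) (hr : r.reduceOption = [Symbol.nonterminal S0])
    (ht : t.reduceOption = w.map Symbol.terminal)
    (h : Relation.ReflTransGen (RowRel L S0 PL PR) r t) :
    Spec (GSys L S0 PL PR) w := by
  obtain ⟨hlen, hc⟩ := t8_chain L S0 PL PR r t h
  obtain ⟨ps, q, h1, h2, h3⟩ := hc Kst.start trivial
  obtain ⟨h4, h5⟩ := t8_out t w ht
  refine ⟨r.map some, t.map some, ps, q, t8_init L S0 PL PR r hr, h1, h2, h4, ?_, h3, h5⟩
  simpa using hlen

end Pool.Agent.H522R4.RC
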