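import Pool.Agent.H522R4.RC.Defs

set_option autoImplicit false

namespace Pool.Agent.H522R4.RC

namespace T9

variable {T N : Type} {L : ℕ} {S0 : N} {PL PR : Finset (RCRule T N)}

/-- the letters read until the next hash sign -/
theorem parse (q' : Kst T N L) (hq' : Acc q') :
    ∀ (ps : List (Option (Option (Symbol T N)) × Option (Option (Symbol T N)))) (s : Kst T N L),
      Run (GSys L S0 PL PR) s ps q' →
      ∃ (rp : List (Option (Symbol T N) × Option (Symbol T N)))
        (ps' : List (Option (Option (Symbol T N)) × Option (Option (Symbol T N)))) (s1 : Kst T N L),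
        ps = emb2 rp ++ ps' ∧ Run (GSys L S0 PL PR) s (emb2 rp) s1 ∧ Acc s1 ∧
        ((ps' = [] ∧ s1 = q') ∨ ∃ ps'', ps' = (none, none) :: ps'' ∧
          Run (GSys L S0 PL PR) (Kst.pre ∅) ps'' q') := by
  intro ps
  induction ps with
  | nil =>
    intro s h
    have h' : s = q' := h
    subst h'
    exact ⟨[], [], s, rfl, rfl, hq', Or.inl ⟨rfl, rfl⟩⟩
  | cons p l ih =>
    intro s h
    obtain ⟨s2, h1, h2⟩ := h
    obtain ⟨a, b⟩ := p
    have h1' : Dl PL PR s a b s2 := h1
    have key : ∀ c d : Option (Symbol T N), a = some c → b = some d →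
        ∃ (rp : List (Option (Symbol T N) × Option (Symbol T N)))
        (ps' : List (Option (Option (Symbol T N)) × Option (Option (Symbol T N)))) (s1 : Kst T N L),
        (a, b) :: l = emb2 rp ++ ps' ∧ Run (GSys L S0 PL PR) s (emb2 rp) s1 ∧ Acc s1 ∧
        ((ps' = [] ∧ s1 = q') ∨ ∃ ps'', ps' = (none, none) :: ps'' ∧
          Run (GSys L S0 PL PR) (Kst.pre ∅) ps'' q') := by
      intro c d hc hd
      obtain ⟨rp, ps', s1, e, r1, r2, r3⟩ := ih s2 h2
      refine ⟨(c, d) :: rp, ps', s1, ?_, ?_, r2, r3⟩
      · rw [e, hc, hd]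
        rfl
      · refine ⟨s2, ?_, r1⟩
        show Dl PL PR s (some c) (some d) s2
        rw [← hc, ← hd]
        exact h1'
    cases h1' with
    | hash _ hq => exact ⟨[], (none, none) :: l, s, rfl, rfl, hq, Or.inr ⟨l, rfl, h2⟩⟩
    | copy P c => exact key _ _ rfl rfl
    | ruleL P A x U W h hU hW => exact key _ _ rfl rfl
    | ruleR P A x U W h => exact key _ _ rfl rfl
    | skip x U W Q => exact key _ _ rfl rfl
    | write y x x' U W Q hx => exact key _ _ rfl rfl
    | copy2 x U W Q c hx => exact key _ _ rfl rfl

theorem uniq {α : Type} : ∀ (a b : List α) (X Y : List (Option α)),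
    a.map some ++ none :: X = b.map some ++ none :: Y → a = b ∧ X = Y := by
  intro a
  induction a with
  | nil =>
    intro b X Y h
    cases b with
    | nil => simpa using h
    | cons y b => simp at h
  | cons x a ih =>
    intro b X Y h
    cases b with
    | nil => simp at h
    | cons y b =>
      simp only [List.map_cons, List.cons_append, List.cons.injEq, Option.some.injEq] at h
      obtain ⟨h1, h2⟩ := ih b X Y h.2
      exact ⟨by rw [h.1, h1], h2⟩

theorem rows (q : Kst T N L) (hq : Acc q) : ∀ (n : ℕ)
    (ps : List (Option (Option (Symbol T N)) × Option (Option (Symbol T N)))), ps.length ≤ n →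
    (ps = [] ∨ ∃ ps'', ps = (none, none) :: ps'' ∧ Run (GSys L S0 PL PR) (Kst.pre ∅) ps'' q) →
    ∀ r t : List (Option (Symbol T N)),
      (none :: r.map some) ++ ps.map Prod.snd = ps.map Prod.fst ++ none :: t.map some →
      Relation.ReflTransGen (RowRel L S0 PL PR) r t := by
  intro n
  induction n with
  | zero =>
    intro ps hps _ r t h
    have h0 : ps = [] := List.length_eq_zero_iff.1 (by omega)
    subst h0
    simp only [List.map_nil, List.append_nil, List.nil_append, List.cons.injEq, true_and] at h
    have : r = t := (List.map_injective_iff.2 (Option.some_injective _)) h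
    rw [this]
  | succ n ih =>
    intro ps hps hs r t h
    rcases hs with hs | ⟨ps'', hs, hrun⟩
    · subst hs
      simp only [List.map_nil, List.append_nil, List.nil_append, List.cons.injEq, true_and] at h
      have : r = t := (List.map_injective_iff.2 (Option.some_injective _)) h
      rw [this]
    · subst hs
      obtain ⟨rp, ps', s1, e, r1, r2, r3⟩ := parse q hq ps'' _ hrun
      subst e
      have hfst : (emb2 rp).map Prod.fst = (rp.map Prod.fst).map some := by
        simp [emb2, Function.comp_def]
      have hsnd : (emb2 rp).map Prod.snd = (rp.map Prod.snd).map some := by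
        simp [emb2, Function.comp_def]
      obtain ⟨Y, hY⟩ : ∃ Y, ps'.map Prod.fst ++ none :: t.map some = none :: Y := by
        rcases r3 with ⟨r3, -⟩ | ⟨ps3, r3, -⟩
        · rw [r3]; exact ⟨_, rfl⟩
        · rw [r3]; exact ⟨_, rfl⟩
      have h2 : r.map some ++ none :: ((rp.map Prod.snd).map some ++ ps'.map Prod.snd) =
          (rp.map Prod.fst).map some ++ none :: Y := by
        rw [← hY, ← hfst, ← hsnd]
        simpa using h
      obtain ⟨h3, h4⟩ := uniq _ _ _ _ h2
      have hlen : ps'.length ≤ n := by
        simp only [List.length_cons, List.length_append] at hps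
        omega
      have h5 := ih ps' hlen (by
        rcases r3 with ⟨r3, -⟩ | r3
        · exact Or.inl r3
        · exact Or.inr r3) (rp.map Prod.snd) t (by
          rw [hY, ← h4]
          simp)
      refine Relation.ReflTransGen.head ?_ h5
      exact ⟨rp, h3.symm, rfl, s1, r1, r2⟩

theorem init_true : ∀ (v : List (Option (Option (Symbol T N)))) (c : Bool),
    Init (GSys L S0 PL PR) true v c → ∃ r : List (Option (Symbol T N)), v = r.map some ∧
      r.reduceOption = [] := by
  intro v
  induction v with
  | nil => intro c _; exact ⟨[], rfl, rfl⟩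
  | cons a l ih =>
    intro c h
    obtain ⟨d, h1, h2⟩ := h
    have h1' : Ini S0 true a d := h1
    rcases h1' with ⟨hd, ha⟩ | ⟨hd, -⟩
    · rw [← hd] at h2
      obtain ⟨r, e1, e2⟩ := ih c h2
      refine ⟨none :: r, ?_, ?_⟩
      · rw [ha, e1]
        rfl
      · rw [List.reduceOption_cons_of_none, e2]
    · simp at hd

theorem init_false : ∀ (v : List (Option (Option (Symbol T N)))),
    Init (GSys L S0 PL PR) false v true → ∃ r : List (Option (Symbol T N)), v = r.map some ∧
      r.reduceOption = [Symbol.nonterminal S0] := by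
  intro v
  induction v with
  | nil =>
    intro h
    have h' : (false : Bool) = true := h
    simp at h'
  | cons a l ih =>
    intro h
    obtain ⟨d, h1, h2⟩ := h
    have h1' : Ini S0 false a d := h1
    rcases h1' with ⟨hd, ha⟩ | ⟨-, hd, ha⟩
    · rw [← hd] at h2
      obtain ⟨r, e1, e2⟩ := ih h2
      refine ⟨none :: r, ?_, ?_⟩
      · rw [ha, e1]
        rfl
      · rw [List.reduceOption_cons_of_none, e2]
    · rw [hd] at h2
      obtain ⟨r, e1, e2⟩ := init_true l true h2
      refine ⟨some (Symbol.nonterminal S0) :: r, ?_, ?_⟩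
      · rw [ha, e1]
        rfl
      · rw [List.reduceOption_cons_of_some, e2]

theorem okF_rows : ∀ (t0 : List (Option (Option (Symbol T N)))), (∀ t ∈ t0, OkF t) →
    ∃ t : List (Option (Symbol T N)), t0 = t.map some ∧
      t.reduceOption = (t0.filterMap Out).map Symbol.terminal := by
  intro t0
  induction t0 with
  | nil => intro _; exact ⟨[], rfl, rfl⟩
  | cons a l ih =>
    intro h
    obtain ⟨t, e1, e2⟩ := ih (fun x hx => h x (List.mem_cons_of_mem _ hx))
    rcases h a List.mem_cons_self with ha | ⟨b, ha⟩
    · refine ⟨none :: t, ?_, ?_⟩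
      · rw [ha, e1]
        rfl
      · rw [List.reduceOption_cons_of_none, e2, ha]
        rfl
    · refine ⟨some (Symbol.terminal b) :: t, ?_, ?_⟩
      · rw [ha, e1]
        rfl
      · rw [List.reduceOption_cons_of_some, e2, ha]
        rfl

end T9

/-- T9 -/
theorem spec_rows {T N : Type} (L : ℕ) (S0 : N) (PL PR : Finset (RCRule T N)) (w : List T)
    (h : Spec (GSys L S0 PL PR) w) :
    ∃ r t : List (Option (Symbol T N)), r.reduceOption = [Symbol.nonterminal S0] ∧
      t.reduceOption = w.map Symbol.terminal ∧
      Relation.ReflTransGen (RowRel L S0 PL PR) r t := by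
  obtain ⟨v0, t0, ps, q, hv0, hrun, hq, hok, -, heq, hw⟩ := h
  obtain ⟨r, hr1, hr2⟩ := T9.init_false v0 hv0
  obtain ⟨t, ht1, ht2⟩ := T9.okF_rows t0 hok
  refine ⟨r, t, hr2, ?_, ?_⟩
  · rw [ht2, hw]
    rfl
  · refine T9.rows q hq ps.length ps le_rfl ?_ r t ?_
    · cases ps with
      | nil => exact Or.inl rfl
      | cons p l =>
        obtain ⟨s2, h1, h2⟩ := hrun
        obtain ⟨a, b⟩ := p
        have h1' : Dl PL PR (Kst.start : Kst T N L) a b s2 := h1
        cases h1' with
        | hash _ _ => exact Or.inr ⟨l, rfl, h2⟩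
    · rw [← hr1, ← ht1]
      exact heq

end Pool.Agent.H522R4.RC
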